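import Pool.Agent.Lib_helper51.TM32.Defs2
import Pool.Agent.Lib_helper96.TM32.Bil1
import Pool.Agent.Lib_helper54.TM32.PH
import Pool.Agent.Lib_helper35.TM32.CNT
import Pool.Agent.Lib_helper33.TM32.Z2

/-!
TM32, block TYPE1 (helper97): `type1` and `F_bound`.
-/

set_option autoImplicit false

namespace Pool.Agent.TM32

open Zsqrtd

/-! ### stubs: Z1, PH, CNT, BIL1 -/

/-! ### the block -/

/-- the element with `Bh = p.1`, `A = p.2` -/
def T1w (p : Zs × Zs) : Z8 := ⟨p.2, ⟨-2 * p.1.im, p.1.re⟩⟩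

theorem T1w_inj {p q : Zs × Zs} (h : T1w p = T1w q) : p = q := by
  unfold T1w at h
  simp only [QuadraticAlgebra.mk.injEq, Zsqrtd.mk.injEq] at h
  obtain ⟨h1, h2, h3⟩ := h
  refine Prod.ext (Zsqrtd.ext h3 ?_) h1
  omega

theorem T1_Bh (p : Zs × Zs) : Bh (T1w p) = p.1 := by
  unfold Bh T1w
  ext
  · rfl
  · simp only
    omega

/-- the box -/
noncomputable def T1B (R : ℕ) : Finset Zs :=
  (Finset.Icc (-(R : ℤ)) R ×ˢ Finset.Icc (-(R : ℤ)) R).map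
    ⟨fun v => ⟨v.1, v.2⟩, by
      rintro ⟨a, b⟩ ⟨a', b'⟩ h
      simp only [Zsqrtd.mk.injEq] at h
      obtain ⟨h1, h2⟩ := h
      rw [h1, h2]⟩

theorem T1B_mem {R : ℕ} {z : Zs} : z ∈ T1B R ↔ |z.re| ≤ R ∧ |z.im| ≤ R := by
  unfold T1B
  simp only [Finset.mem_map, Finset.mem_product, Finset.mem_Icc, Function.Embedding.coeFn_mk,
    Prod.exists, abs_le]
  constructor
  · rintro ⟨a, b, h, rfl⟩
    exact h
  · intro h
    exact ⟨z.re, z.im, h, rfl⟩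

theorem T1B_card (R : ℕ) : (T1B R).card = (2 * R + 1) ^ 2 := by
  unfold T1B
  rw [Finset.card_map, Finset.card_product, Int.card_Icc, pow_two]
  have : ((R : ℤ) + 1 - -(R : ℤ)).toNat = 2 * R + 1 := by omega
  rw [this]

theorem T1_bx_mem {R : ℕ} {w : Z8} : w ∈ bx R ↔ (|w.re.re| ≤ R ∧ |w.re.im| ≤ R) ∧
    (|w.im.re| ≤ R ∧ |w.im.im| ≤ R) := by
  unfold bx
  simp only [Finset.mem_map, Finset.mem_product, Finset.mem_Icc, Function.Embedding.coeFn_mk,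
    Prod.exists, abs_le]
  constructor
  · rintro ⟨a, b, c, d, h, rfl⟩
    exact h
  · intro h
    exact ⟨w.re.re, w.re.im, w.im.re, w.im.im, h, rfl⟩

/-- the sign -/
def T1s (w : Z8) : ℤ := (if w.re.im % 4 = 0 then 1 else -1) *
    jacobiSym 2 ((w.re.re - w.im.im) ^ 2 + w.im.im ^ 2).natAbs

theorem T1_St (w : Z8) : St w = Sp w * T1s w := by
  unfold St T1s
  rw [mul_assoc]

theorem T1_jac (a : ℤ) (b : ℕ) : |(jacobiSym a b : ℤ)| ≤ 1 := by
  rcases jacobiSym.trichotomy a b with h | h | h <;> rw [h] <;> norm_num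

theorem T1s_abs (w : Z8) : |(T1s w : ℝ)| ≤ 1 := by
  have h : |T1s w| ≤ 1 := by
    unfold T1s
    rw [abs_mul]
    have h1 : |(if w.re.im % 4 = 0 then (1 : ℤ) else -1)| = 1 := by
      split_ifs <;> norm_num
    rw [h1, one_mul]
    exact T1_jac _ _
  have h2 : ((|T1s w| : ℤ) : ℝ) ≤ ((1 : ℤ) : ℝ) := by exact_mod_cast h
  rw [Int.cast_abs] at h2
  simpa using h2

theorem T1_qs_abs (x : Zs) {y : Zs} (hy : y.norm % 2 = 1) : |(qs x y : ℝ)| ≤ 1 := by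
  by_cases h : IsCoprime x y
  · rcases qs_pm hy h with h1 | h1 <;> rw [h1] <;> norm_num
  · rw [qs_zero hy h]
    norm_num

theorem T1_Op_norm {y : Zs} (hy : Op y) : y.norm % 2 = 1 := by
  rw [nv]
  obtain ⟨h1, h2⟩ := hy
  have h3 : y.re ^ 2 % 2 = 1 := by
    rw [pow_two, Int.mul_emod, h1]
    norm_num
  omega

/-- coordinates of the support -/
theorem T1_coord {w : Z8} {n : ℤ} {R : ℕ} (hg : gg w ^ 2 ≤ 1200 * n) (hR : 4800 * n ≤ (R : ℤ) ^ 4) :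
    w ∈ bx R := by
  have key : ∀ c : ℤ, c ^ 2 ≤ 2 * gg w → |c| ≤ R := by
    intro c hc
    by_contra hlt
    rw [not_le] at hlt
    have h0 := gg_nonneg w
    have h1 : (c ^ 2) ^ 2 ≤ (2 * gg w) ^ 2 := pow_le_pow_left₀ (sq_nonneg c) hc 2
    have h2 : (R : ℤ) ^ 4 < |c| ^ 4 := pow_lt_pow_left₀ hlt (by positivity) (by norm_num)
    have h3 : |c| ^ 4 = (c ^ 2) ^ 2 := by rw [← sq_abs c]; ring
    nlinarith
  have hgg : gg w = (w.re.re - w.im.im) ^ 2 + (w.im.re + w.re.im) ^ 2 + w.im.im ^ 2 +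
    w.re.im ^ 2 := rfl
  rw [T1_bx_mem]
  refine ⟨⟨key _ ?_, key _ ?_⟩, key _ ?_, key _ ?_⟩
  · rw [hgg]
    nlinarith [sq_nonneg (w.re.re - w.im.im - w.im.im), sq_nonneg (w.im.re + w.re.im),
      sq_nonneg w.re.im]
  · rw [hgg]
    nlinarith [sq_nonneg (w.re.re - w.im.im), sq_nonneg (w.im.re + w.re.im),
      sq_nonneg w.re.im, sq_nonneg w.im.im]
  · rw [hgg]
    nlinarith [sq_nonneg (w.re.re - w.im.im), sq_nonneg (w.im.re + w.re.im + w.re.im),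
      sq_nonneg w.re.im, sq_nonneg w.im.im]
  · rw [hgg]
    nlinarith [sq_nonneg (w.re.re - w.im.im), sq_nonneg (w.im.re + w.re.im),
      sq_nonneg w.re.im, sq_nonneg w.im.im]

theorem T1_exists {w : Z8} {R : ℕ} (hw : W w) (h : w ∈ bx R) :
    ∃ p ∈ T1B R ×ˢ T1B R, T1w p = w := by
  rw [T1_bx_mem] at h
  obtain ⟨⟨h1, h2⟩, h3, h4⟩ := h
  have h5 : w.im.re % 4 = 0 := hw.2
  refine ⟨(⟨w.im.im, -(w.im.re / 2)⟩, w.re), ?_, ?_⟩
  · rw [Finset.mem_product, T1B_mem, T1B_mem]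
    refine ⟨⟨h4, ?_⟩, h1, h2⟩
    simp only
    rw [abs_le] at h3 ⊢
    omega
  · unfold T1w
    ext
    · rfl
    · rfl
    · simp only
      omega
    · rfl

theorem T1_mem2 {p : Zs × Zs} {R : ℕ} (h : p ∈ T1B R ×ˢ T1B R) : T1w p ∈ bx (2 * R) := by
  rw [Finset.mem_product, T1B_mem, T1B_mem] at h
  obtain ⟨⟨h1, h2⟩, h3, h4⟩ := h
  rw [T1_bx_mem]
  unfold T1w
  simp only [abs_le] at *
  push_cast
  refine ⟨⟨?_, ?_⟩, ?_, ?_⟩ <;> constructor <;> omega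

open Classical in
theorem T1_F {n R : ℕ} (hn : 1 ≤ n) (hR : 4800 * (n : ℤ) ≤ (R : ℤ) ^ 4) :
    F n = ∑ p ∈ T1B R ×ˢ T1B R, if W (T1w p) ∧ N8 (T1w p) = n then
      Ph (T1w p) * (St (T1w p) : ℝ) else 0 := by
  rw [← Finset.sum_filter, ← Finset.sum_image (g := T1w) (f := fun w => Ph w * (St w : ℝ))
    (fun p _ q _ h => T1w_inj h)]
  unfold F
  set S1 := (bx (20 * n)).filter (fun w => W w ∧ N8 w = n) with hS1
  set S2 := ((T1B R ×ˢ T1B R).filter (fun p => W (T1w p) ∧ N8 (T1w p) = n)).image T1w with hS2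
  have h20 : 4800 * (n : ℤ) ≤ ((20 * n : ℕ) : ℤ) ^ 4 := by
    push_cast
    have : (1 : ℤ) ≤ n := by exact_mod_cast hn
    have h3 : (1 : ℤ) ≤ (n : ℤ) ^ 3 := one_le_pow₀ this
    nlinarith
  have e1 : ∑ w ∈ S1 ∩ S2, Ph w * (St w : ℝ) = ∑ w ∈ S1, Ph w * (St w : ℝ) := by
    apply Finset.sum_subset Finset.inter_subset_left
    intro w hw hw2
    by_cases hP : Ph w = 0
    · rw [hP, zero_mul]
    · exfalso
      apply hw2
      rw [Finset.mem_inter]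
      refine ⟨hw, ?_⟩
      rw [hS1, Finset.mem_filter] at hw
      have hg := Ph_support hP
      rw [hw.2.2] at hg
      have h1 := T1_coord hg hR
      obtain ⟨p, hp, hpw⟩ := T1_exists hw.2.1 h1
      rw [hS2, Finset.mem_image]
      refine ⟨p, ?_, hpw⟩
      rw [Finset.mem_filter, hpw]
      exact ⟨hp, hw.2⟩
  have e2 : ∑ w ∈ S1 ∩ S2, Ph w * (St w : ℝ) = ∑ w ∈ S2, Ph w * (St w : ℝ) := by
    apply Finset.sum_subset Finset.inter_subset_right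
    intro w hw hw2
    by_cases hP : Ph w = 0
    · rw [hP, zero_mul]
    · exfalso
      apply hw2
      rw [Finset.mem_inter]
      refine ⟨?_, hw⟩
      rw [hS2, Finset.mem_image] at hw
      obtain ⟨p, hp, rfl⟩ := hw
      rw [Finset.mem_filter] at hp
      have hg := Ph_support hP
      rw [hp.2.2] at hg
      rw [hS1, Finset.mem_filter]
      exact ⟨T1_coord hg h20, hp.2⟩
  rw [← e1, e2]

open Classical in
/-- the weight -/
noncomputable def T1h (M Y : ℕ) (w : Z8) : ℝ :=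
  if W w ∧ (M : ℤ) ∣ N8 w ∧ 1 ≤ N8 w ∧ N8 w ≤ Y then Ph w * T1s w else 0

theorem T1_sum {M Y R : ℕ} (hR : 4800 * (Y : ℤ) ≤ (R : ℤ) ^ 4) :
    ∑ n ∈ (Finset.Icc 1 Y).filter (fun n => M ∣ n), F n =
      ∑ p ∈ T1B R ×ˢ T1B R, T1h M Y (T1w p) * (qs p.1 p.2 : ℝ) := by
  classical
  have h1 : ∀ n ∈ (Finset.Icc 1 Y).filter (fun n => M ∣ n), F n =
      ∑ p ∈ T1B R ×ˢ T1B R, if W (T1w p) ∧ N8 (T1w p) = n then
        Ph (T1w p) * (St (T1w p) : ℝ) else 0 := by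
    intro n hn
    rw [Finset.mem_filter, Finset.mem_Icc] at hn
    apply T1_F hn.1.1
    have : (n : ℤ) ≤ Y := by exact_mod_cast hn.1.2
    linarith
  rw [Finset.sum_congr rfl h1, Finset.sum_comm]
  apply Finset.sum_congr rfl
  intro p _
  unfold T1h
  by_cases h : W (T1w p) ∧ (M : ℤ) ∣ N8 (T1w p) ∧ 1 ≤ N8 (T1w p) ∧ N8 (T1w p) ≤ Y
  · obtain ⟨hW, hM, hN1, hN2⟩ := h
    rw [if_pos ⟨hW, hM, hN1, hN2⟩]
    rw [Finset.sum_eq_single_of_mem (N8 (T1w p)).toNat]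
    · rw [if_pos ⟨hW, by omega⟩, T1_St]
      have : Sp (T1w p) = qs p.1 p.2 := by
        unfold Sp
        rw [T1_Bh]
        rfl
      rw [this]
      push_cast
      ring
    · rw [Finset.mem_filter, Finset.mem_Icc]
      refine ⟨⟨by omega, by omega⟩, ?_⟩
      rw [← Int.natCast_dvd_natCast, Int.toNat_of_nonneg (by omega)]
      exact hM
    · intro n _ hne
      rw [if_neg]
      rintro ⟨_, h2⟩
      apply hne
      omega
  · rw [if_neg h, zero_mul]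
    apply Finset.sum_eq_zero
    intro n hn
    rw [Finset.mem_filter, Finset.mem_Icc] at hn
    rw [if_neg]
    rintro ⟨h2, h3⟩
    apply h
    rw [h3]
    exact ⟨h2, by exact_mod_cast hn.2, by exact_mod_cast hn.1.1, by exact_mod_cast hn.1.2⟩

/-- the abstract cell lemma -/
theorem T1_cells {ι κ : Type*} [DecidableEq κ] (B : Finset ι) (k : ι → κ) (h : ι × ι → ℝ)
    (g : ι → ι → ℝ) (E : ι × ι → ℝ) (ok : ι → Prop) (V : ℝ) (hV0 : 0 ≤ V)
    (hg : ∀ x y, ok y → |g x y| ≤ 1) (h0 : ∀ p : ι × ι, ¬ ok p.2 → h p = 0)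
    (hok : ∀ y y', k y = k y' → ok y → ok y') (hh : ∀ p, |h p| ≤ 1)
    (hE0 : ∀ p, 0 ≤ E p)
    (hE : ∀ p ∈ B ×ˢ B, ∀ p' ∈ B ×ˢ B, k p.1 = k p'.1 → k p.2 = k p'.2 → ok p.2 →
      |h p - h p'| ≤ E p)
    (hV : ∀ i j, (∀ y ∈ B.filter (fun y => k y = j), ok y) →
      ∑ y ∈ B.filter (fun y => k y = j), |∑ x ∈ B.filter (fun x => k x = i), g x y| ≤ V) :
    |∑ p ∈ B ×ˢ B, h p * g p.1 p.2| ≤ ∑ p ∈ B ×ˢ B, E p + ((B.image k).card : ℝ) ^ 2 * V := by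
  classical
  set c : κ × κ → ℝ := fun t =>
    if H : ∃ p ∈ B ×ˢ B, k p.1 = t.1 ∧ k p.2 = t.2 ∧ ok p.2 then h H.choose else 0 with hc
  have hc1 : ∀ t, |c t| ≤ 1 := by
    intro t
    rw [hc]
    simp only
    split_ifs with H
    · exact hh _
    · simp
  have h1 : ∑ p ∈ B ×ˢ B, h p * g p.1 p.2 =
      ∑ p ∈ B ×ˢ B, (h p - c (k p.1, k p.2)) * g p.1 p.2 +
        ∑ p ∈ B ×ˢ B, c (k p.1, k p.2) * g p.1 p.2 := by
    rw [← Finset.sum_add_distrib]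
    apply Finset.sum_congr rfl
    intro p _
    ring
  rw [h1]
  refine (abs_add_le _ _).trans (add_le_add ?_ ?_)
  · refine (Finset.abs_sum_le_sum_abs _ _).trans (Finset.sum_le_sum fun p hp => ?_)
    by_cases hop : ok p.2
    · have H : ∃ p' ∈ B ×ˢ B, k p'.1 = k p.1 ∧ k p'.2 = k p.2 ∧ ok p'.2 :=
        ⟨p, hp, rfl, rfl, hop⟩
      have h2 : c (k p.1, k p.2) = h H.choose := by
        rw [hc]
        simp only
        rw [dif_pos H]
      rw [h2, abs_mul]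
      have h3 := H.choose_spec
      have h4 := hE p hp _ h3.1 h3.2.1.symm h3.2.2.1.symm hop
      calc |h p - h H.choose| * |g p.1 p.2| ≤ |h p - h H.choose| * 1 :=
            mul_le_mul_of_nonneg_left (hg _ _ hop) (abs_nonneg _)
        _ ≤ E p := by rw [mul_one]; exact h4
    · have h2 : c (k p.1, k p.2) = 0 := by
        rw [hc]
        simp only
        rw [dif_neg]
        rintro ⟨p', _, _, h3, h4⟩
        exact hop (hok _ _ h3 h4)
      rw [h2, h0 p hop]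
      simpa using hE0 p
  · have h2 : ∑ p ∈ B ×ˢ B, c (k p.1, k p.2) * g p.1 p.2 =
        ∑ t ∈ B.image k ×ˢ B.image k, c t *
          ∑ y ∈ B.filter (fun y => k y = t.2), ∑ x ∈ B.filter (fun x => k x = t.1), g x y := by
      rw [← Finset.sum_fiberwise_of_maps_to (s := B ×ˢ B) (t := B.image k ×ˢ B.image k)
        (g := fun p => (k p.1, k p.2))]
      · apply Finset.sum_congr rfl
        rintro ⟨i, j⟩ _
        rw [Finset.mul_sum]
        have h3 : (B ×ˢ B).filter (fun p => (k p.1, k p.2) = (i, j)) =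
            (B.filter (fun x => k x = i)) ×ˢ (B.filter (fun y => k y = j)) := by
          ext ⟨x, y⟩
          simp only [Finset.mem_filter, Finset.mem_product, Prod.mk.injEq]
          tauto
        rw [h3, Finset.sum_product_right]
        apply Finset.sum_congr rfl
        intro y hy
        rw [Finset.mul_sum]
        apply Finset.sum_congr rfl
        intro x hx
        rw [Finset.mem_filter] at hx hy
        simp only
        rw [hx.2, hy.2]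
      · intro p hp
        rw [Finset.mem_product] at hp ⊢
        exact ⟨Finset.mem_image_of_mem _ hp.1, Finset.mem_image_of_mem _ hp.2⟩
    rw [h2]
    refine (Finset.abs_sum_le_sum_abs _ _).trans ?_
    have h4 : ∀ t ∈ B.image k ×ˢ B.image k, |c t *
        ∑ y ∈ B.filter (fun y => k y = t.2), ∑ x ∈ B.filter (fun x => k x = t.1), g x y| ≤ V := by
      rintro ⟨i, j⟩ _
      by_cases H : ∃ p ∈ B ×ˢ B, k p.1 = i ∧ k p.2 = j ∧ ok p.2
      · have h5 : ∀ y ∈ B.filter (fun y => k y = j), ok y := by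
          intro y hy
          rw [Finset.mem_filter] at hy
          obtain ⟨p', _, _, h6, h7⟩ := H
          exact hok _ _ (h6.trans hy.2.symm) h7
        rw [abs_mul]
        calc |c (i, j)| * |∑ y ∈ B.filter (fun y => k y = j),
              ∑ x ∈ B.filter (fun x => k x = i), g x y| ≤
              1 * |∑ y ∈ B.filter (fun y => k y = j),
                ∑ x ∈ B.filter (fun x => k x = i), g x y| :=
              mul_le_mul_of_nonneg_right (hc1 _) (abs_nonneg _)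
          _ ≤ ∑ y ∈ B.filter (fun y => k y = j),
                |∑ x ∈ B.filter (fun x => k x = i), g x y| := by
              rw [one_mul]
              exact Finset.abs_sum_le_sum_abs _ _
          _ ≤ V := hV i j h5
      · have h5 : c (i, j) = 0 := by
          rw [hc]
          simp only
          rw [dif_neg H]
        rw [h5, zero_mul, abs_zero]
        exact hV0
    refine (Finset.sum_le_sum h4).trans ?_
    rw [Finset.sum_const, Finset.card_product, nsmul_eq_mul]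
    push_cast
    apply le_of_eq
    ring

/-- the cell of a number -/
def T1k (D q : ℕ) (z : Zs) : (ℤ × ℤ) × (ℤ × ℤ) :=
  ((z.re / D, z.re % q), (z.im / D, z.im % q))

theorem T1k_card {D q R : ℕ} (hD : 0 < D) (hq : 0 < q) :
    (((T1B R).image (T1k D q)).card : ℝ) ≤ ((2 * ((R : ℝ) / D) + 2) * q) ^ 2 := by
  have h1 : (T1B R).image (T1k D q) ⊆
      (Finset.Icc (-((R / D : ℕ) : ℤ) - 1) ((R / D : ℕ) : ℤ) ×ˢ Finset.Ico (0 : ℤ) q) ×ˢ
        (Finset.Icc (-((R / D : ℕ) : ℤ) - 1) ((R / D : ℕ) : ℤ) ×ˢ Finset.Ico (0 : ℤ) q) := by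
    have key : ∀ a : ℤ, |a| ≤ R → (-((R / D : ℕ) : ℤ) - 1 ≤ a / D ∧ a / D ≤ ((R / D : ℕ) : ℤ)) ∧
        (0 ≤ a % q ∧ a % q < q) := by
      intro a ha
      rw [abs_le] at ha
      have hD' : (0 : ℤ) < D := by exact_mod_cast hD
      have hq' : (0 : ℤ) < q := by exact_mod_cast hq
      refine ⟨⟨?_, ?_⟩, Int.emod_nonneg _ hq'.ne', Int.emod_lt_of_pos _ hq'⟩
      · rw [Int.le_ediv_iff_mul_le hD']
        have h2 : (R : ℤ) < ((R / D : ℕ) + 1 : ℤ) * D := by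
          have := Nat.lt_div_mul_add hD (a := R)
          have h3 : R < (R / D + 1) * D := by nlinarith
          exact_mod_cast h3
        nlinarith
      · push_cast
        exact Int.ediv_le_ediv hD' ha.2
    intro t ht
    rw [Finset.mem_image] at ht
    obtain ⟨z, hz, rfl⟩ := ht
    rw [T1B_mem] at hz
    unfold T1k
    simp only [Finset.mem_product, Finset.mem_Icc, Finset.mem_Ico]
    exact ⟨key _ hz.1, key _ hz.2⟩
  have h2 := Finset.card_le_card h1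
  rw [Finset.card_product, Finset.card_product, Int.card_Icc, Int.card_Ico] at h2
  have h3 : (((R / D : ℕ) : ℤ) + 1 - (-((R / D : ℕ) : ℤ) - 1)).toNat = 2 * (R / D) + 2 := by omega
  have h4 : ((q : ℤ) - 0).toNat = q := by omega
  rw [h3, h4] at h2
  have h5 : (((T1B R).image (T1k D q)).card : ℝ) ≤
      ((2 * ((R / D : ℕ) : ℝ) + 2) * q) * ((2 * ((R / D : ℕ) : ℝ) + 2) * q) := by
    exact_mod_cast h2
  have h6 : ((R / D : ℕ) : ℝ) ≤ (R : ℝ) / D := Nat.cast_div_le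
  refine h5.trans ?_
  rw [pow_two]
  have h7 : (2 * ((R / D : ℕ) : ℝ) + 2) * q ≤ (2 * ((R : ℝ) / D) + 2) * q :=
    mul_le_mul_of_nonneg_right (by linarith) (Nat.cast_nonneg _)
  exact mul_le_mul h7 h7 (by positivity) (by positivity)

theorem T1_div {D : ℕ} (hD : 0 < D) {a b : ℤ} (h : a / D = b / D) : |a - b| ≤ D := by
  have hD' : (0 : ℤ) < D := by exact_mod_cast hD
  have h1 := Int.emod_add_mul_ediv a D
  have h2 := Int.emod_add_mul_ediv b D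
  have h3 := Int.emod_nonneg a hD'.ne'
  have h4 := Int.emod_nonneg b hD'.ne'
  have h5 := Int.emod_lt_of_pos a hD'
  have h6 := Int.emod_lt_of_pos b hD'
  rw [h] at h1
  rw [abs_le]
  constructor <;> linarith

/-- two pairs of the same cell -/
theorem T1k_spec {D q : ℕ} (hD : 0 < D) {z z' : Zs} (h : T1k D q z = T1k D q z') :
    (|z.re - z'.re| ≤ D ∧ |z.im - z'.im| ≤ D) ∧
      ((q : ℤ) ∣ z.re - z'.re ∧ (q : ℤ) ∣ z.im - z'.im) := by
  unfold T1k at h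
  simp only [Prod.mk.injEq] at h
  obtain ⟨⟨h1, h2⟩, h3, h4⟩ := h
  exact ⟨⟨T1_div hD h1, T1_div hD h3⟩,
    ⟨Int.ModEq.dvd (n := (q : ℤ)) h2.symm, Int.ModEq.dvd (n := (q : ℤ)) h4.symm⟩⟩

theorem T1_N8 (p : Zs × Zs) : N8 (T1w p) =
    ((p.2.re - p.1.re) ^ 2 + (-2 * p.1.im + p.2.im) ^ 2 + p.1.re ^ 2 + p.2.im ^ 2) ^ 2 -
      2 * (p.2.re * (-2 * p.1.im) + 2 * p.2.im * p.1.re) ^ 2 := by
  rw [N8_eq]
  rfl

theorem T1_sqd {u v A B : ℤ} (hu : |u| ≤ A) (hv : |v| ≤ A) (h : |u - v| ≤ B) :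
    |u ^ 2 - v ^ 2| ≤ 2 * A * B := by
  have h1 : u ^ 2 - v ^ 2 = (u + v) * (u - v) := by ring
  rw [h1, abs_mul]
  have h2 : |u + v| ≤ 2 * A := (abs_add_le _ _).trans (by linarith)
  exact mul_le_mul h2 h (abs_nonneg _) ((abs_nonneg _).trans h2)

theorem T1_prd {u v u' v' A B : ℤ} (hu : |u| ≤ A) (hv : |v'| ≤ A) (h : |u - u'| ≤ B)
    (h' : |v - v'| ≤ B) : |u * v - u' * v'| ≤ 2 * A * B := by
  have h1 : u * v - u' * v' = u * (v - v') + (u - u') * v' := by ring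
  rw [h1]
  have h2 : |u * (v - v')| ≤ A * B := by
    rw [abs_mul]
    exact mul_le_mul hu h' (abs_nonneg _) ((abs_nonneg _).trans hu)
  have h3 : |(u - u') * v'| ≤ B * A := by
    rw [abs_mul]
    exact mul_le_mul h hv (abs_nonneg _) ((abs_nonneg _).trans h)
  refine (abs_add_le _ _).trans ?_
  linarith [mul_comm A B]

theorem T1_lipN {p p' : Zs × Zs} {R D : ℤ} (hR : |p.1.re| ≤ R ∧ |p.1.im| ≤ R ∧ |p.2.re| ≤ R ∧
    |p.2.im| ≤ R) (hR' : |p'.1.re| ≤ R ∧ |p'.1.im| ≤ R ∧ |p'.2.re| ≤ R ∧ |p'.2.im| ≤ R)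
    (hD : |p.1.re - p'.1.re| ≤ D ∧ |p.1.im - p'.1.im| ≤ D ∧ |p.2.re - p'.2.re| ≤ D ∧
      |p.2.im - p'.2.im| ≤ D) : |N8 (T1w p) - N8 (T1w p')| ≤ 1100 * R ^ 3 * D := by
  obtain ⟨a1, a2, a3, a4⟩ := hR
  obtain ⟨b1, b2, b3, b4⟩ := hR'
  obtain ⟨d1, d2, d3, d4⟩ := hD
  rw [T1_N8, T1_N8]
  generalize p.1.re = x0 at *
  generalize p.1.im = x1 at *
  generalize p.2.re = y0 at *
  generalize p.2.im = y1 at *
  generalize p'.1.re = u0 at *
  generalize p'.1.im = u1 at *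
  generalize p'.2.re = v0 at *
  generalize p'.2.im = v1 at *
  have hR0 : 0 ≤ R := (abs_nonneg _).trans a1
  have hD0 : 0 ≤ D := (abs_nonneg _).trans d1
  -- linear forms
  have l1 : |y0 - x0| ≤ 2 * R := by rw [abs_le] at *; constructor <;> linarith
  have l1' : |v0 - u0| ≤ 2 * R := by rw [abs_le] at *; constructor <;> linarith
  have l1d : |(y0 - x0) - (v0 - u0)| ≤ 2 * D := by rw [abs_le] at *; constructor <;> linarith
  have l2 : |-2 * x1 + y1| ≤ 3 * R := by rw [abs_le] at *; constructor <;> linarith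
  have l2' : |-2 * u1 + v1| ≤ 3 * R := by rw [abs_le] at *; constructor <;> linarith
  have l2d : |(-2 * x1 + y1) - (-2 * u1 + v1)| ≤ 3 * D := by
    rw [abs_le] at *; constructor <;> linarith
  have s1 := T1_sqd l1 l1' l1d
  have s2 := T1_sqd l2 l2' l2d
  have s3 := T1_sqd a1 b1 d1
  have s4 := T1_sqd a4 b4 d4
  have q1 : (y0 - x0) ^ 2 ≤ (2 * R) ^ 2 := sq_le_sq' (by linarith [abs_le.1 l1]) (abs_le.1 l1).2
  have q1' : (v0 - u0) ^ 2 ≤ (2 * R) ^ 2 := sq_le_sq' (by linarith [abs_le.1 l1']) (abs_le.1 l1').2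
  have q2 : (-2 * x1 + y1) ^ 2 ≤ (3 * R) ^ 2 :=
    sq_le_sq' (by linarith [abs_le.1 l2]) (abs_le.1 l2).2
  have q2' : (-2 * u1 + v1) ^ 2 ≤ (3 * R) ^ 2 :=
    sq_le_sq' (by linarith [abs_le.1 l2']) (abs_le.1 l2').2
  have q3 : x0 ^ 2 ≤ R ^ 2 := sq_le_sq' (by linarith [abs_le.1 a1]) (abs_le.1 a1).2
  have q3' : u0 ^ 2 ≤ R ^ 2 := sq_le_sq' (by linarith [abs_le.1 b1]) (abs_le.1 b1).2
  have q4 : y1 ^ 2 ≤ R ^ 2 := sq_le_sq' (by linarith [abs_le.1 a4]) (abs_le.1 a4).2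
  have q4' : v1 ^ 2 ≤ R ^ 2 := sq_le_sq' (by linarith [abs_le.1 b4]) (abs_le.1 b4).2
  have g1 : |(y0 - x0) ^ 2 + (-2 * x1 + y1) ^ 2 + x0 ^ 2 + y1 ^ 2| ≤ 15 * R ^ 2 := by
    rw [abs_of_nonneg (by positivity)]
    linarith
  have g2 : |(v0 - u0) ^ 2 + (-2 * u1 + v1) ^ 2 + u0 ^ 2 + v1 ^ 2| ≤ 15 * R ^ 2 := by
    rw [abs_of_nonneg (by positivity)]
    linarith
  have g3 : |((y0 - x0) ^ 2 + (-2 * x1 + y1) ^ 2 + x0 ^ 2 + y1 ^ 2) -
      ((v0 - u0) ^ 2 + (-2 * u1 + v1) ^ 2 + u0 ^ 2 + v1 ^ 2)| ≤ 30 * (R * D) := by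
    rw [abs_le] at s1 s2 s3 s4 ⊢
    constructor <;> linarith
  have t1 := T1_prd a3 b2 d3 d2
  have t2 := T1_prd a4 b1 d4 d1
  have m1 : |y0 * x1| ≤ R * R := by
    rw [abs_mul]; exact mul_le_mul a3 a2 (abs_nonneg _) hR0
  have m2 : |y1 * x0| ≤ R * R := by
    rw [abs_mul]; exact mul_le_mul a4 a1 (abs_nonneg _) hR0
  have m3 : |v0 * u1| ≤ R * R := by
    rw [abs_mul]; exact mul_le_mul b3 b2 (abs_nonneg _) hR0
  have m4 : |v1 * u0| ≤ R * R := by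
    rw [abs_mul]; exact mul_le_mul b4 b1 (abs_nonneg _) hR0
  have hRR : R ^ 2 = R * R := pow_two R
  have k1 : |y0 * (-2 * x1) + 2 * y1 * x0| ≤ 4 * R ^ 2 := by
    have e : y0 * (-2 * x1) + 2 * y1 * x0 = -2 * (y0 * x1) + 2 * (y1 * x0) := by ring
    rw [e, hRR]
    rw [abs_le] at m1 m2 ⊢
    constructor <;> linarith
  have k2 : |v0 * (-2 * u1) + 2 * v1 * u0| ≤ 4 * R ^ 2 := by
    have e : v0 * (-2 * u1) + 2 * v1 * u0 = -2 * (v0 * u1) + 2 * (v1 * u0) := by ring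
    rw [e, hRR]
    rw [abs_le] at m3 m4 ⊢
    constructor <;> linarith
  have k3 : |(y0 * (-2 * x1) + 2 * y1 * x0) - (v0 * (-2 * u1) + 2 * v1 * u0)| ≤ 8 * (R * D) := by
    have e : (y0 * (-2 * x1) + 2 * y1 * x0) - (v0 * (-2 * u1) + 2 * v1 * u0) =
      -2 * (y0 * x1 - v0 * u1) + 2 * (y1 * x0 - v1 * u0) := by ring
    rw [e]
    rw [abs_le] at t1 t2 ⊢
    constructor <;> linarith
  have f1 := T1_sqd g1 g2 g3
  have f2 := T1_sqd k1 k2 k3
  have h0 : 0 ≤ R ^ 3 * D := by positivity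
  have e1 : 2 * (15 * R ^ 2) * (30 * (R * D)) = 900 * (R ^ 3 * D) := by ring
  have e2 : 2 * (4 * R ^ 2) * (8 * (R * D)) = 64 * (R ^ 3 * D) := by ring
  have e3 : 1100 * R ^ 3 * D = 1100 * (R ^ 3 * D) := by ring
  rw [e1] at f1
  rw [e2] at f2
  rw [e3]
  clear e1 e2 e3 s1 s2 s3 s4 q1 q1' q2 q2' q3 q3' q4 q4' g1 g2 g3 t1 t2 m1 m2 m3 m4 k1 k2 k3
    l1 l1' l1d l2 l2' l2d a1 a2 a3 a4 b1 b2 b3 b4 d1 d2 d3 d4 hRR
  rw [abs_le] at f1 f2 ⊢
  constructor <;> linarith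

theorem T1_jac2 {n n' : ℤ} (h0 : 0 ≤ n) (h0' : 0 ≤ n') (h1 : n % 2 = 1) (h : (8 : ℤ) ∣ n - n') :
    jacobiSym 2 n.natAbs = jacobiSym 2 n'.natAbs := by
  obtain ⟨a, rfl⟩ := Int.eq_ofNat_of_zero_le h0
  obtain ⟨b, rfl⟩ := Int.eq_ofNat_of_zero_le h0'
  rw [Int.natAbs_natCast, Int.natAbs_natCast]
  have ha : Odd a := by rw [Nat.odd_iff]; omega
  have hb : Odd b := by rw [Nat.odd_iff]; omega
  rw [jacobiSym.at_two ha, jacobiSym.at_two hb]
  congr 1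
  rw [ZMod.natCast_eq_natCast_iff]
  have : (a : ℤ) ≡ (b : ℤ) [ZMOD (8 : ℤ)] := (Int.modEq_iff_dvd.2 (by
    have h2 := dvd_neg.2 h
    rwa [neg_sub] at h2))
  exact Int.natCast_modEq_iff.1 (by exact_mod_cast this)

theorem T1_class {D M : ℕ} (hD : 0 < D) {p p' : Zs × Zs}
    (h1 : T1k D (8 * M) p.1 = T1k D (8 * M) p'.1) (h2 : T1k D (8 * M) p.2 = T1k D (8 * M) p'.2) :
    (W (T1w p) ↔ W (T1w p')) ∧ ((M : ℤ) ∣ N8 (T1w p) ↔ (M : ℤ) ∣ N8 (T1w p')) ∧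
      (W (T1w p) → T1s (T1w p) = T1s (T1w p')) := by
  obtain ⟨_, a1, a2⟩ := T1k_spec hD h1
  obtain ⟨_, a3, a4⟩ := T1k_spec hD h2
  have key : ∀ a b : ℤ, ((8 * M : ℕ) : ℤ) ∣ a - b → (8 : ℤ) ∣ a - b ∧ a ≡ b [ZMOD (M : ℤ)] := by
    intro a b h
    push_cast at h
    refine ⟨(dvd_mul_right _ _).trans h, ?_⟩
    have h3 : (M : ℤ) ∣ a - b := (dvd_mul_left _ _).trans h
    exact (Int.modEq_iff_dvd.2 h3).symm
  obtain ⟨b1, c1⟩ := key _ _ a1
  obtain ⟨b2, c2⟩ := key _ _ a2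
  obtain ⟨b3, c3⟩ := key _ _ a3
  obtain ⟨b4, c4⟩ := key _ _ a4
  have hW : W (T1w p) ↔ W (T1w p') := by
    unfold W Op T1w
    simp only
    omega
  refine ⟨hW, ?_, ?_⟩
  · have h3 : N8 (T1w p) ≡ N8 (T1w p') [ZMOD (M : ℤ)] := by
      rw [T1_N8, T1_N8]
      exact (((((c3.sub c1).pow 2).add (((c2.mul_left _).add c4).pow 2)).add (c1.pow 2)).add
        (c4.pow 2)).pow 2 |>.sub (((c3.mul (c2.mul_left _)).add
          ((c4.mul_left 2).mul c1)).pow 2 |>.mul_left 2)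
    rw [Int.dvd_iff_emod_eq_zero, Int.dvd_iff_emod_eq_zero]
    unfold Int.ModEq at h3
    rw [h3]
  · intro hw
    unfold T1s
    have e1 : (T1w p).re.im % 4 = 0 ↔ (T1w p').re.im % 4 = 0 := by
      unfold T1w
      simp only
      omega
    have e2 : jacobiSym 2 (((T1w p).re.re - (T1w p).im.im) ^ 2 + (T1w p).im.im ^ 2).natAbs =
        jacobiSym 2 (((T1w p').re.re - (T1w p').im.im) ^ 2 + (T1w p').im.im ^ 2).natAbs := by
      apply T1_jac2 (by positivity) (by positivity)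
      · have h4 : (T1w p).re.re % 2 = 1 := hw.1.1
        have h5 : ((T1w p).re.re - (T1w p).im.im) ^ 2 + (T1w p).im.im ^ 2 =
          (T1w p).re.re ^ 2 + 2 * ((T1w p).im.im ^ 2 - (T1w p).re.re * (T1w p).im.im) := by ring
        have h6 : (T1w p).re.re ^ 2 % 2 = 1 := by
          rw [pow_two, Int.mul_emod, h4]
          norm_num
        rw [h5]
        omega
      · unfold T1w
        simp only
        have h7 : (p.2.re - p.1.re) ^ 2 + p.1.re ^ 2 - ((p'.2.re - p'.1.re) ^ 2 + p'.1.re ^ 2) =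
          ((p.2.re - p'.2.re) - (p.1.re - p'.1.re)) *
            ((p.2.re - p.1.re) + (p'.2.re - p'.1.re)) +
            (p.1.re - p'.1.re) * (p.1.re + p'.1.re) := by ring
        rw [h7]
        exact dvd_add (Dvd.dvd.mul_right (dvd_sub b3 b1) _) (Dvd.dvd.mul_right b1 _)
    rw [e2]
    by_cases h8 : (T1w p).re.im % 4 = 0
    · rw [if_pos h8, if_pos (e1.1 h8)]
    · rw [if_neg h8, if_neg (fun h => h8 (e1.2 h))]

theorem T1h_abs (M Y : ℕ) (w : Z8) : |T1h M Y w| ≤ 1 := by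
  unfold T1h
  split_ifs with h
  · rw [abs_mul]
    obtain ⟨h1, h2⟩ := Ph_bounds w
    have h3 : |Ph w| ≤ 1 := by rw [abs_of_nonneg h1]; exact h2
    exact mul_le_one₀ h3 (abs_nonneg _) (T1s_abs w)
  · simp

open Classical in
/-- the error in a cell -/
theorem T1_err {D M Y R : ℕ} (hD : 0 < D) {p p' : Zs × Zs}
    (hp : p ∈ T1B R ×ˢ T1B R) (hp' : p' ∈ T1B R ×ˢ T1B R)
    (h1 : T1k D (8 * M) p.1 = T1k D (8 * M) p'.1) (h2 : T1k D (8 * M) p.2 = T1k D (8 * M) p'.2)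
    (N₀ L : ℝ) (hN : 1 ≤ N₀)
    (hL : N₀ ≤ N8 (T1w p) → N₀ ≤ N8 (T1w p') → |Ph (T1w p) - Ph (T1w p')| ≤ L) :
    |T1h M Y (T1w p) - T1h M Y (T1w p')| ≤
      |L| + 2 * ((if (N8 (T1w p) : ℝ) ≤ N₀ + (1100 * R ^ 3 * D : ℕ) then 1 else 0) +
        (if |(N8 (T1w p) : ℝ) - Y| ≤ (1100 * R ^ 3 * D : ℕ) then 1 else 0)) := by
  have hb := T1h_abs M Y (T1w p)
  have hb' := T1h_abs M Y (T1w p')
  have h2b : |T1h M Y (T1w p) - T1h M Y (T1w p')| ≤ 2 := by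
    rw [abs_le] at hb hb' ⊢
    constructor <;> linarith
  have hLn := abs_nonneg L
  by_cases c1 : (N8 (T1w p) : ℝ) ≤ N₀ + (1100 * R ^ 3 * D : ℕ)
  · rw [if_pos c1]
    split_ifs <;> linarith
  by_cases c2 : |(N8 (T1w p) : ℝ) - Y| ≤ (1100 * R ^ 3 * D : ℕ)
  · rw [if_pos c2]
    split_ifs <;> linarith
  rw [if_neg c1, if_neg c2]
  rw [Finset.mem_product, T1B_mem, T1B_mem] at hp hp'
  obtain ⟨⟨d1, d2⟩, _⟩ := T1k_spec hD h1
  obtain ⟨⟨d3, d4⟩, _⟩ := T1k_spec hD h2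
  have hl := T1_lipN (R := (R : ℤ)) (D := (D : ℤ)) ⟨hp.1.1, hp.1.2, hp.2.1, hp.2.2⟩
    ⟨hp'.1.1, hp'.1.2, hp'.2.1, hp'.2.2⟩ ⟨d1, d2, d3, d4⟩
  have hl' : |(N8 (T1w p) : ℝ) - N8 (T1w p')| ≤ (1100 * R ^ 3 * D : ℕ) := by
    have : ((|N8 (T1w p) - N8 (T1w p')| : ℤ) : ℝ) ≤ ((1100 * (R : ℤ) ^ 3 * (D : ℤ) : ℤ) : ℝ) := by
      exact_mod_cast hl
    rw [Int.cast_abs] at this
    push_cast at this ⊢
    exact this
  rw [not_le] at c1 c2
  obtain ⟨e1, e2, e3⟩ := T1_class hD h1 h2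
  rw [abs_le] at hl'
  have n1 : N₀ ≤ N8 (T1w p) := by
    have : (0 : ℝ) ≤ (1100 * R ^ 3 * D : ℕ) := Nat.cast_nonneg _
    linarith
  have n2 : N₀ ≤ N8 (T1w p') := by linarith
  have m1 : 1 ≤ N8 (T1w p) := by
    have : (1 : ℝ) ≤ N8 (T1w p) := hN.trans n1
    exact_mod_cast this
  have m2 : 1 ≤ N8 (T1w p') := by
    have : (1 : ℝ) ≤ N8 (T1w p') := hN.trans n2
    exact_mod_cast this
  have e4 : N8 (T1w p) ≤ Y ↔ N8 (T1w p') ≤ Y := by
    have e5 : (N8 (T1w p) : ℝ) ≤ Y ↔ (N8 (T1w p') : ℝ) ≤ Y := by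
      rcases le_total ((N8 (T1w p) : ℝ) - Y) 0 with hs | hs
      · rw [abs_of_nonpos hs] at c2
        constructor <;> (intro _; linarith)
      · rw [abs_of_nonneg hs] at c2
        have : (0 : ℝ) ≤ (1100 * R ^ 3 * D : ℕ) := Nat.cast_nonneg _
        constructor <;> (intro _; linarith)
    constructor
    · intro h
      have : (N8 (T1w p') : ℝ) ≤ Y := e5.1 (by exact_mod_cast h)
      exact_mod_cast this
    · intro h
      have : (N8 (T1w p) : ℝ) ≤ Y := e5.2 (by exact_mod_cast h)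
      exact_mod_cast this
  have hL' := (hL n1 n2).trans (le_abs_self L)
  unfold T1h
  by_cases c : W (T1w p) ∧ (M : ℤ) ∣ N8 (T1w p) ∧ 1 ≤ N8 (T1w p) ∧ N8 (T1w p) ≤ Y
  · have c' : W (T1w p') ∧ (M : ℤ) ∣ N8 (T1w p') ∧ 1 ≤ N8 (T1w p') ∧ N8 (T1w p') ≤ Y :=
      ⟨e1.1 c.1, e2.1 c.2.1, m2, e4.1 c.2.2.2⟩
    rw [if_pos c, if_pos c', e3 c.1, ← sub_mul, abs_mul]
    have := mul_le_mul hL' (T1s_abs (T1w p')) (abs_nonneg _) hLn
    linarith
  · have c' : ¬ (W (T1w p') ∧ (M : ℤ) ∣ N8 (T1w p') ∧ 1 ≤ N8 (T1w p') ∧ N8 (T1w p') ≤ Y) :=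
      fun h => c ⟨e1.2 h.1, e2.2 h.2.1, m1, e4.2 h.2.2.2⟩
    rw [if_neg c, if_neg c', sub_zero, abs_zero]
    linarith

theorem T1_cntJ {R : ℕ} (J : Finset ℕ) (K : ℝ) (hK0 : 0 ≤ K)
    (hK : ∀ n : ℕ, 1 ≤ n → (((bx (2 * R)).filter (fun w => N8 w = n)).card : ℝ) ≤ K) :
    (((T1B R ×ˢ T1B R).filter (fun p => (N8 (T1w p)).toNat ∈ J)).card : ℝ) ≤ J.card * K + 1 := by
  classical
  have h1 := Finset.card_eq_sum_card_fiberwise
    (s := (T1B R ×ˢ T1B R).filter (fun p => (N8 (T1w p)).toNat ∈ J))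
    (t := J) (f := fun p => (N8 (T1w p)).toNat) (fun p hp => by
      simp only [Finset.coe_filter, Set.mem_ofPred_eq] at hp
      exact hp.2)
  have h2 : ∀ n ∈ J, ((((T1B R ×ˢ T1B R).filter (fun p => (N8 (T1w p)).toNat ∈ J)).filter
      (fun p => (N8 (T1w p)).toNat = n)).card : ℝ) ≤ K + (if n = 0 then 1 else 0) := by
    intro n _
    by_cases hn : n = 0
    · rw [if_pos hn]
      have h3 : (((T1B R ×ˢ T1B R).filter (fun p => (N8 (T1w p)).toNat ∈ J)).filter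
          (fun p => (N8 (T1w p)).toNat = n)).card ≤ 1 := by
        rw [Finset.card_le_one]
        intro p hp p' hp'
        rw [Finset.mem_filter] at hp hp'
        have hz : ∀ p : Zs × Zs, (N8 (T1w p)).toNat = n → T1w p = 0 := by
          intro p h
          have h0 := N8_nonneg (T1w p)
          exact N8_eq_zero.1 (by omega)
        exact T1w_inj ((hz p hp.2).trans (hz p' hp'.2).symm)
      have h4 : ((((T1B R ×ˢ T1B R).filter (fun p => (N8 (T1w p)).toNat ∈ J)).filter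
          (fun p => (N8 (T1w p)).toNat = n)).card : ℝ) ≤ 1 := by exact_mod_cast h3
      linarith
    · rw [if_neg hn, add_zero]
      refine le_trans ?_ (hK n (by omega))
      have h3 : (((T1B R ×ˢ T1B R).filter (fun p => (N8 (T1w p)).toNat ∈ J)).filter
          (fun p => (N8 (T1w p)).toNat = n)).card ≤
          ((bx (2 * R)).filter (fun w => N8 w = n)).card := by
        apply Finset.card_le_card_of_injOn T1w
        · intro p hp
          simp only [Finset.coe_filter, Set.mem_ofPred_eq, Finset.mem_filter] at hp ⊢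
          refine ⟨T1_mem2 hp.1.1, ?_⟩
          omega
        · intro p _ p' _ h
          exact T1w_inj h
      exact_mod_cast h3
  rw [h1]
  push_cast
  refine (Finset.sum_le_sum h2).trans ?_
  rw [Finset.sum_add_distrib, Finset.sum_const, nsmul_eq_mul]
  have h5 : ∑ n ∈ J, (if n = 0 then (1 : ℝ) else 0) ≤ 1 := by
    rw [Finset.sum_ite_eq' J 0 (fun _ => (1 : ℝ))]
    split_ifs <;> norm_num
  linarith

theorem T1_cnt1 {R : ℕ} (K U : ℝ) (hK0 : 0 ≤ K) (hU : 0 ≤ U)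
    (hK : ∀ n : ℕ, 1 ≤ n → (((bx (2 * R)).filter (fun w => N8 w = n)).card : ℝ) ≤ K) :
    (∑ p ∈ T1B R ×ˢ T1B R, if (N8 (T1w p) : ℝ) ≤ U then (1 : ℝ) else 0) ≤ (U + 1) * K + 1 := by
  classical
  have h1 := T1_cntJ (R := R) (Finset.range (⌊U⌋₊ + 1)) K hK0 hK
  rw [Finset.card_range] at h1
  have h2 : (⌊U⌋₊ : ℝ) ≤ U := Nat.floor_le hU
  have h3 : ((⌊U⌋₊ + 1 : ℕ) : ℝ) * K ≤ (U + 1) * K := by
    apply mul_le_mul_of_nonneg_right _ hK0
    push_cast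
    linarith
  refine le_trans ?_ (h1.trans (by linarith))
  rw [← Finset.sum_filter, Finset.sum_const, nsmul_eq_mul, mul_one]
  have h4 : ((T1B R ×ˢ T1B R).filter (fun p => (N8 (T1w p) : ℝ) ≤ U)) ⊆
      ((T1B R ×ˢ T1B R).filter (fun p => (N8 (T1w p)).toNat ∈ Finset.range (⌊U⌋₊ + 1))) := by
    intro p hp
    rw [Finset.mem_filter] at hp ⊢
    refine ⟨hp.1, ?_⟩
    rw [Finset.mem_range, Nat.lt_succ_iff]
    apply Nat.le_floor
    have h0 := N8_nonneg (T1w p)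
    have h5 : (((N8 (T1w p)).toNat : ℤ) : ℝ) = (N8 (T1w p) : ℝ) := by
      rw [Int.toNat_of_nonneg h0]
    have h6 : (((N8 (T1w p)).toNat : ℕ) : ℝ) = (N8 (T1w p) : ℝ) := by
      rw [← h5]
      push_cast
      rfl
    rw [h6]
    exact hp.2
  exact_mod_cast Finset.card_le_card h4

theorem T1_cnt2 {R Y Δ : ℕ} (K : ℝ) (hK0 : 0 ≤ K)
    (hK : ∀ n : ℕ, 1 ≤ n → (((bx (2 * R)).filter (fun w => N8 w = n)).card : ℝ) ≤ K) :
    (∑ p ∈ T1B R ×ˢ T1B R, if |(N8 (T1w p) : ℝ) - Y| ≤ (Δ : ℕ) then (1 : ℝ) else 0) ≤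
      (2 * Δ + 1) * K + 1 := by
  classical
  have h1 := T1_cntJ (R := R) (Finset.Icc (Y - Δ) (Y + Δ)) K hK0 hK
  have h3 : ((Finset.Icc (Y - Δ) (Y + Δ)).card : ℝ) * K ≤ (2 * Δ + 1) * K := by
    apply mul_le_mul_of_nonneg_right _ hK0
    have : (Finset.Icc (Y - Δ) (Y + Δ)).card ≤ 2 * Δ + 1 := by
      rw [Nat.card_Icc]
      omega
    exact_mod_cast this
  refine le_trans ?_ (h1.trans (by linarith))
  rw [← Finset.sum_filter, Finset.sum_const, nsmul_eq_mul, mul_one]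
  have h4 : ((T1B R ×ˢ T1B R).filter (fun p => |(N8 (T1w p) : ℝ) - Y| ≤ (Δ : ℕ))) ⊆
      ((T1B R ×ˢ T1B R).filter (fun p => (N8 (T1w p)).toNat ∈ Finset.Icc (Y - Δ) (Y + Δ))) := by
    intro p hp
    rw [Finset.mem_filter] at hp ⊢
    refine ⟨hp.1, ?_⟩
    have h0 := N8_nonneg (T1w p)
    have h5 : |N8 (T1w p) - (Y : ℤ)| ≤ (Δ : ℤ) := by
      have h6 : ((|N8 (T1w p) - (Y : ℤ)| : ℤ) : ℝ) ≤ ((Δ : ℤ) : ℝ) := by
        rw [Int.cast_abs]
        push_cast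
        exact hp.2
      exact_mod_cast h6
    rw [abs_le] at h5
    rw [Finset.mem_Icc]
    omega
  exact_mod_cast Finset.card_le_card h4

open Classical in
/-- the main estimate, in terms of `R` -/
theorem T1_main {θ δ CL Cc Cb : ℝ} (hθ : 0 < θ) (hθ1 : 64 * θ ≤ 1) (hθδ : 64 * θ ≤ δ)
    (hCL : ∀ (w w' : Z8) (R D N₀ : ℝ), 0 < N₀ → N₀ ≤ N8 w → N₀ ≤ N8 w' →
      (∀ v : Z8, v = w ∨ v = w' → |(v.re.re : ℝ)| ≤ R ∧ |(v.re.im : ℝ)| ≤ R ∧ |(v.im.re : ℝ)| ≤ R ∧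
        |(v.im.im : ℝ)| ≤ R) →
      |(w.re.re - w'.re.re : ℝ)| ≤ D → |(w.re.im - w'.re.im : ℝ)| ≤ D →
      |(w.im.re - w'.im.re : ℝ)| ≤ D → |(w.im.im - w'.im.im : ℝ)| ≤ D →
      |Ph w - Ph w'| ≤ CL * R ^ 3 * D / N₀)
    (hCc : ∀ R n : ℕ, 1 ≤ R → 1 ≤ n →
      (((bx R).filter (fun w => N8 w = n)).card : ℝ) ≤ Cc * (R : ℝ) ^ θ)
    (hCb : ∀ R : ℕ, 1 ≤ R → ∀ (X Y : Finset Zs),
      (∀ x ∈ X, |x.re| ≤ R ∧ |x.im| ≤ R) →
      (∀ y ∈ Y, |y.re| ≤ R ∧ |y.im| ≤ R ∧ y.norm % 2 = 1) →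
      ∑ y ∈ Y, |∑ x ∈ X, (qs x y : ℝ)| ≤ Cb * (R : ℝ) ^ (4 - δ))
    {M Y R : ℕ} (hR1 : 1 ≤ R) (hM1 : 1 ≤ M) (hM : (M : ℝ) ≤ ((R : ℝ) ^ θ) ^ 4) :
    |∑ p ∈ T1B R ×ˢ T1B R, T1h M Y (T1w p) * (qs p.1 p.2 : ℝ)| ≤
      (2592 * |CL| + 4 + 26420 * |Cc| + 2 ^ 20 * |Cb|) * ((R : ℝ) ^ 4 / (R : ℝ) ^ θ) := by
  have hr1 : (1 : ℝ) ≤ R := by exact_mod_cast hR1
  have hr0 : (0 : ℝ) < R := by linarith
  set ρ : ℝ := (R : ℝ) ^ θ with hρ
  have hρ1 : 1 ≤ ρ := Real.one_le_rpow hr1 hθ.le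
  have hρ0 : 0 < ρ := by linarith
  have hρ4 : ρ ^ 4 ≤ R := by
    rw [hρ, ← Real.rpow_natCast, ← Real.rpow_mul hr0.le]
    calc (R : ℝ) ^ (θ * (4 : ℕ)) ≤ (R : ℝ) ^ (1 : ℝ) :=
          Real.rpow_le_rpow_of_exponent_le hr1 (by push_cast; linarith)
      _ = R := Real.rpow_one _
  have hρ64 : ρ ^ 64 ≤ (R : ℝ) ^ δ := by
    rw [hρ, ← Real.rpow_natCast, ← Real.rpow_mul hr0.le]
    exact Real.rpow_le_rpow_of_exponent_le hr1 (by push_cast; linarith)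
  have hρpow : ∀ k : ℕ, 1 ≤ ρ ^ k := fun k => one_le_pow₀ hρ1
  -- the side of the cells
  set D : ℕ := ⌈(R : ℝ) / ρ ^ 4⌉₊ with hDdef
  have hD1 : (R : ℝ) / ρ ^ 4 ≤ D := Nat.le_ceil _
  have hD2 : (D : ℝ) ≤ 2 * ((R : ℝ) / ρ ^ 4) := by
    have h1 : (D : ℝ) < (R : ℝ) / ρ ^ 4 + 1 := Nat.ceil_lt_add_one (by positivity)
    have h2 : 1 ≤ (R : ℝ) / ρ ^ 4 := by
      rw [le_div_iff₀ (by positivity)]
      linarith
    linarith
  have hDpos : 0 < D := Nat.ceil_pos.2 (by positivity)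
  have hDr : (0 : ℝ) < D := by exact_mod_cast hDpos
  set N₀ : ℝ := (R : ℝ) ^ 4 / ρ ^ 2 with hN₀
  have hρ2R : ρ ^ 2 ≤ R := by
    have : ρ ^ 2 ≤ ρ ^ 4 := pow_le_pow_right₀ hρ1 (by norm_num)
    linarith
  have hR4 : (R : ℝ) ≤ (R : ℝ) ^ 4 := le_self_pow₀ hr1 (by norm_num)
  have hN1 : 1 ≤ N₀ := by
    rw [hN₀, le_div_iff₀ (by positivity)]
    linarith
  have hN0 : 0 < N₀ := by linarith
  set L : ℝ := CL * (2 * R) ^ 3 * (2 * D) / N₀ with hL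
  set Q : ℝ := (R : ℝ) ^ 4 / ρ with hQ
  have hN₀Q : N₀ * ρ = Q := by
    rw [hN₀, hQ]
    field_simp
  have hQ1 : 1 ≤ Q := by
    rw [← hN₀Q]
    exact one_le_mul_of_one_le_of_one_le hN1 hρ1
  have hN₀le : N₀ ≤ Q := by
    rw [← hN₀Q]
    exact le_mul_of_one_le_right hN0.le hρ1
  -- the bound for elements of given norm
  set K : ℝ := |Cc| * (2 * ρ) with hK
  have hK0 : 0 ≤ K := by positivity
  have hKb : ∀ n : ℕ, 1 ≤ n → (((bx (2 * R)).filter (fun w => N8 w = n)).card : ℝ) ≤ K := by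
    intro n hn
    refine (hCc (2 * R) n (by omega) hn).trans ?_
    rw [hK]
    push_cast
    rw [Real.mul_rpow (by norm_num) hr0.le]
    have h2 : (2 : ℝ) ^ θ ≤ 2 := by
      calc (2 : ℝ) ^ θ ≤ (2 : ℝ) ^ (1 : ℝ) :=
            Real.rpow_le_rpow_of_exponent_le (by norm_num) (by linarith)
        _ = 2 := Real.rpow_one _
    calc Cc * ((2 : ℝ) ^ θ * ρ) ≤ |Cc| * ((2 : ℝ) ^ θ * ρ) :=
          mul_le_mul_of_nonneg_right (le_abs_self _) (by positivity)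
      _ ≤ |Cc| * (2 * ρ) :=
          mul_le_mul_of_nonneg_left (mul_le_mul_of_nonneg_right h2 hρ0.le) (abs_nonneg _)
  set V : ℝ := |Cb| * (R : ℝ) ^ (4 - δ) with hV
  have hV0 : 0 ≤ V := by positivity
  set Δ : ℕ := 1100 * R ^ 3 * D with hΔ
  have hcell := T1_cells (T1B R) (T1k D (8 * M)) (fun p => T1h M Y (T1w p))
    (fun x y => (qs x y : ℝ))
    (fun p => |L| + 2 * ((if (N8 (T1w p) : ℝ) ≤ N₀ + (Δ : ℕ) then 1 else 0) +
        (if |(N8 (T1w p) : ℝ) - Y| ≤ (Δ : ℕ) then 1 else 0))) Op V hV0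
    (fun x y hy => T1_qs_abs x (T1_Op_norm hy))
    (fun p hp => by
      unfold T1h
      rw [if_neg]
      rintro ⟨h, _⟩
      exact hp h.1)
    (fun y y' h hy => by
      obtain ⟨_, h1, h2⟩ := T1k_spec hDpos h
      unfold Op at hy ⊢
      push_cast at h1 h2
      have h3 : (8 : ℤ) ∣ y.re - y'.re := (dvd_mul_right _ _).trans h1
      have h4 : (8 : ℤ) ∣ y.im - y'.im := (dvd_mul_right _ _).trans h2
      omega)
    (fun p => T1h_abs M Y _)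
    (fun p => by
      have := abs_nonneg L
      split_ifs <;> linarith)
    (fun p hp p' hp' h1 h2 _ => by
      apply T1_err hDpos hp hp' h1 h2 N₀ L hN1
      intro n1 n2
      rw [Finset.mem_product, T1B_mem, T1B_mem] at hp hp'
      obtain ⟨⟨d1, d2⟩, _⟩ := T1k_spec hDpos h1
      obtain ⟨⟨d3, d4⟩, _⟩ := T1k_spec hDpos h2
      have cast : ∀ (a : ℤ) (b : ℕ), |a| ≤ b → |(a : ℝ)| ≤ b := by
        intro a b h
        have : ((|a| : ℤ) : ℝ) ≤ ((b : ℤ) : ℝ) := by exact_mod_cast h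
        rw [Int.cast_abs] at this
        exact_mod_cast this
      have bd : ∀ p : Zs × Zs, (|p.1.re| ≤ R ∧ |p.1.im| ≤ R) ∧ (|p.2.re| ≤ R ∧ |p.2.im| ≤ R) →
          |((T1w p).re.re : ℝ)| ≤ 2 * R ∧ |((T1w p).re.im : ℝ)| ≤ 2 * R ∧
            |((T1w p).im.re : ℝ)| ≤ 2 * R ∧ |((T1w p).im.im : ℝ)| ≤ 2 * R := by
        intro p hp
        unfold T1w
        simp only
        push_cast
        have c1 := cast _ _ hp.1.1
        have c2 := cast _ _ hp.1.2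
        have c3 := cast _ _ hp.2.1
        have c4 := cast _ _ hp.2.2
        refine ⟨by linarith, by linarith, ?_, by linarith⟩
        rw [abs_mul]
        norm_num
        linarith
      have e := hCL (T1w p) (T1w p') (2 * R) (2 * D) N₀ hN0 n1 n2 (by
        intro v hv
        rcases hv with rfl | rfl
        · exact bd p hp
        · exact bd p' hp')
      have c1 := cast _ _ d1
      have c2 := cast _ _ d2
      have c3 := cast _ _ d3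
      have c4 := cast _ _ d4
      push_cast at c1 c2 c3 c4
      apply e
      · unfold T1w; simp only; linarith
      · unfold T1w; simp only; linarith
      · unfold T1w
        simp only
        push_cast
        have : (-2 * (p.1.im : ℝ) - -2 * (p'.1.im : ℝ)) = -2 * ((p.1.im : ℝ) - p'.1.im) := by ring
        rw [this, abs_mul]
        norm_num
        linarith
      · unfold T1w; simp only; linarith)
    (fun i j hj => by
      refine (hCb R hR1 _ _ ?_ ?_).trans ?_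
      · intro x hx
        rw [Finset.mem_filter, T1B_mem] at hx
        exact hx.1
      · intro y hy
        have h1 := hj y hy
        rw [Finset.mem_filter, T1B_mem] at hy
        exact ⟨hy.1.1, hy.1.2, T1_Op_norm h1⟩
      · exact mul_le_mul_of_nonneg_right (le_abs_self _) (by positivity))
  refine hcell.trans ?_
  rw [Finset.sum_add_distrib, ← Finset.mul_sum, Finset.sum_add_distrib, Finset.sum_const,
    nsmul_eq_mul]
  -- the counts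
  have hΔr : (Δ : ℝ) ≤ 2200 * N₀ := by
    rw [hΔ]
    push_cast
    have h1 : 1100 * (R : ℝ) ^ 3 * D ≤ 1100 * (R : ℝ) ^ 3 * (2 * ((R : ℝ) / ρ ^ 4)) :=
      mul_le_mul_of_nonneg_left hD2 (by positivity)
    have h2 : 1100 * (R : ℝ) ^ 3 * (2 * ((R : ℝ) / ρ ^ 4)) = 2200 * ((R : ℝ) ^ 4 / ρ ^ 4) := by ring
    have h3 : (R : ℝ) ^ 4 / ρ ^ 4 ≤ (R : ℝ) ^ 4 / ρ ^ 2 :=
      div_le_div_of_nonneg_left (by positivity) (by positivity)
        (pow_le_pow_right₀ hρ1 (by norm_num))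
    linarith
  have hc1 := T1_cnt1 (R := R) K (N₀ + (Δ : ℕ)) hK0 (by positivity) hKb
  have hc2 := T1_cnt2 (R := R) (Y := Y) (Δ := Δ) K hK0 hKb
  have hKN : N₀ * K = 2 * |Cc| * Q := by
    rw [hK, ← hN₀Q]
    ring
  have hc1' : (N₀ + (Δ : ℕ) + 1) * K + 1 ≤ 4404 * |Cc| * Q + Q := by
    have h1 : (N₀ + (Δ : ℕ) + 1) * K ≤ (2202 * N₀) * K :=
      mul_le_mul_of_nonneg_right (by linarith) hK0
    have h2 : (2202 * N₀) * K = 4404 * |Cc| * Q := by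
      rw [mul_assoc, hKN]
      ring
    linarith
  have hc2' : (2 * (Δ : ℝ) + 1) * K + 1 ≤ 8802 * |Cc| * Q + Q := by
    have h1 : (2 * (Δ : ℝ) + 1) * K ≤ (4401 * N₀) * K :=
      mul_le_mul_of_nonneg_right (by linarith) hK0
    have h2 : (4401 * N₀) * K = 8802 * |Cc| * Q := by
      rw [mul_assoc, hKN]
      ring
    linarith
  have hL1 : (((T1B R ×ˢ T1B R).card : ℕ) : ℝ) * |L| ≤ 2592 * |CL| * Q := by
    rw [Finset.card_product, T1B_card]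
    push_cast
    have h1 : |L| = |CL| * (2 * R) ^ 3 * (2 * D) / N₀ := by
      rw [hL, abs_div, abs_mul, abs_mul, abs_of_pos hN0, abs_of_pos (by positivity :
        (0 : ℝ) < (2 * R) ^ 3), abs_of_pos (by positivity : (0 : ℝ) < 2 * D)]
    have h2 : (2 * (R : ℝ) + 1) ^ 2 * (2 * (R : ℝ) + 1) ^ 2 ≤ 81 * (R : ℝ) ^ 4 := by
      have h3 : (2 * (R : ℝ) + 1) ≤ 3 * R := by linarith
      have h4 : (2 * (R : ℝ) + 1) ^ 4 ≤ (3 * (R : ℝ)) ^ 4 :=
        pow_le_pow_left₀ (by positivity) h3 4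
      have h5 : (2 * (R : ℝ) + 1) ^ 2 * (2 * (R : ℝ) + 1) ^ 2 = (2 * (R : ℝ) + 1) ^ 4 := by ring
      rw [h5]
      refine h4.trans (le_of_eq ?_)
      ring
    have h3 : |L| ≤ 32 * |CL| / ρ ^ 2 := by
      rw [h1, div_le_div_iff₀ hN0 (by positivity)]
      have h4 : |CL| * (2 * (R : ℝ)) ^ 3 * (2 * D) ≤
          |CL| * (2 * (R : ℝ)) ^ 3 * (2 * (2 * ((R : ℝ) / ρ ^ 4))) :=
        mul_le_mul_of_nonneg_left (by linarith) (by positivity)
      calc |CL| * (2 * (R : ℝ)) ^ 3 * (2 * D) * ρ ^ 2 ≤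
            |CL| * (2 * (R : ℝ)) ^ 3 * (2 * (2 * ((R : ℝ) / ρ ^ 4))) * ρ ^ 2 :=
            mul_le_mul_of_nonneg_right h4 (by positivity)
        _ = 32 * |CL| * N₀ := by
            rw [hN₀]
            field_simp
            ring
    calc (2 * (R : ℝ) + 1) ^ 2 * (2 * (R : ℝ) + 1) ^ 2 * |L| ≤
          (81 * (R : ℝ) ^ 4) * (32 * |CL| / ρ ^ 2) :=
          mul_le_mul h2 h3 (abs_nonneg _) (by positivity)
      _ = 2592 * |CL| * N₀ := by
          rw [hN₀]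
          ring
      _ ≤ 2592 * |CL| * Q := mul_le_mul_of_nonneg_left hN₀le (by positivity)
  -- the main term
  have hmain : ((((T1B R).image (T1k D (8 * M))).card : ℕ) : ℝ) ^ 2 * V ≤ 2 ^ 20 * |Cb| * Q := by
    have h1 := T1k_card (R := R) hDpos (by omega : 0 < 8 * M)
    have h2 : (R : ℝ) / D ≤ ρ ^ 4 := by
      rw [div_le_iff₀ hDr]
      rw [div_le_iff₀ (by positivity)] at hD1
      linarith
    have h3 : (2 * ((R : ℝ) / D) + 2) * ((8 * M : ℕ) : ℝ) ≤ 32 * ρ ^ 8 := by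
      push_cast
      have h4 : 2 * ((R : ℝ) / D) + 2 ≤ 4 * ρ ^ 4 := by
        have := hρpow 4
        linarith
      calc (2 * ((R : ℝ) / D) + 2) * (8 * (M : ℝ)) ≤ (4 * ρ ^ 4) * (8 * ρ ^ 4) :=
            mul_le_mul h4 (by linarith) (by positivity) (by positivity)
        _ = 32 * ρ ^ 8 := by ring
    have h4 : ((((T1B R).image (T1k D (8 * M))).card : ℕ) : ℝ) ≤ (32 * ρ ^ 8) ^ 2 :=
      h1.trans (pow_le_pow_left₀ (by positivity) h3 2)
    have h5 : ((((T1B R).image (T1k D (8 * M))).card : ℕ) : ℝ) ^ 2 ≤ ((32 * ρ ^ 8) ^ 2) ^ 2 :=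
      pow_le_pow_left₀ (Nat.cast_nonneg _) h4 2
    have h6 : V * ρ ^ 64 ≤ |Cb| * (R : ℝ) ^ 4 := by
      calc V * ρ ^ 64 ≤ V * (R : ℝ) ^ δ := mul_le_mul_of_nonneg_left hρ64 hV0
        _ = |Cb| * ((R : ℝ) ^ (4 - δ) * (R : ℝ) ^ δ) := by rw [hV]; ring
        _ = |Cb| * (R : ℝ) ^ 4 := by
            rw [← Real.rpow_add hr0, sub_add_cancel]
            norm_cast
    have h7 : ρ ^ 32 * V ≤ |Cb| * Q := by
      rw [hQ, mul_div_assoc', le_div_iff₀ hρ0]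
      have h8 : ρ ^ 32 * V * ρ ≤ V * ρ ^ 64 := by
        have h9 : ρ ^ 32 * V * ρ = V * ρ ^ 33 := by ring
        rw [h9]
        exact mul_le_mul_of_nonneg_left (pow_le_pow_right₀ hρ1 (by norm_num)) hV0
      linarith
    calc ((((T1B R).image (T1k D (8 * M))).card : ℕ) : ℝ) ^ 2 * V ≤ ((32 * ρ ^ 8) ^ 2) ^ 2 * V :=
          mul_le_mul_of_nonneg_right h5 hV0
      _ = 2 ^ 20 * (ρ ^ 32 * V) := by ring
      _ ≤ 2 ^ 20 * (|Cb| * Q) := mul_le_mul_of_nonneg_left h7 (by norm_num)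
      _ = 2 ^ 20 * |Cb| * Q := by ring
  have hCc0 := mul_nonneg (abs_nonneg Cc) (by linarith : (0 : ℝ) ≤ Q)
  have htot : (2592 * |CL| + 4 + 26420 * |Cc| + 2 ^ 20 * |Cb|) * Q =
      2592 * |CL| * Q + 4 * Q + 26420 * (|Cc| * Q) + 2 ^ 20 * |Cb| * Q := by ring
  rw [htot]
  linarith

theorem type1 : ∃ δ₁ : ℝ, 0 < δ₁ ∧ ∃ δ₂ : ℝ, 0 < δ₂ ∧ ∃ C : ℝ, ∀ X : ℝ, 1 ≤ X → ∀ M : ℕ, 1 ≤ M →
      (M : ℝ) ≤ X ^ δ₁ → ∀ Y : ℕ, (Y : ℝ) ≤ X →
      |∑ n ∈ (Finset.Icc 1 Y).filter (fun n => M ∣ n), F n| ≤ C * X ^ (1 - δ₂) := by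
  obtain ⟨δ, hδ, Cb, hCb⟩ := bil1
  obtain ⟨CL, hCL⟩ := Ph_lip
  set θ : ℝ := min δ 1 / 64 with hθdef
  have hθ : 0 < θ := by
    have : 0 < min δ 1 := lt_min hδ one_pos
    positivity
  have hθ1 : 64 * θ ≤ 1 := by
    have := min_le_right δ 1
    rw [hθdef]
    linarith
  have hθδ : 64 * θ ≤ δ := by
    have := min_le_left δ 1
    rw [hθdef]
    linarith
  obtain ⟨Cc, hCc⟩ := cnt θ hθ
  refine ⟨θ, hθ, θ / 4, by positivity,
    (2592 * |CL| + 4 + 26420 * |Cc| + 2 ^ 20 * |Cb|) * 28561, ?_⟩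
  intro X hX M hM1 hMX Y hY
  have hX0 : 0 < X := by linarith
  set x4 : ℝ := X ^ ((1 : ℝ) / 4) with hx4
  have hx1 : 1 ≤ x4 := Real.one_le_rpow hX (by norm_num)
  have hx0 : 0 < x4 := by linarith
  have hx44 : x4 ^ 4 = X := by
    rw [hx4, ← Real.rpow_natCast, ← Real.rpow_mul hX0.le]
    norm_num
  set R : ℕ := ⌈12 * x4⌉₊ with hR
  have hRl : 12 * x4 ≤ R := Nat.le_ceil _
  have hRu : (R : ℝ) ≤ 13 * x4 := by
    have h1 : (R : ℝ) < 12 * x4 + 1 := Nat.ceil_lt_add_one (by positivity)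
    linarith
  have hR0 : (0 : ℝ) < R := by linarith
  have hR1 : 1 ≤ R := Nat.one_le_iff_ne_zero.2 (by
    intro h
    rw [h] at hR0
    norm_num at hR0)
  have hR4 : X ≤ (R : ℝ) ^ 4 ∧ 20736 * X ≤ (R : ℝ) ^ 4 ∧ (R : ℝ) ^ 4 ≤ 28561 * X := by
    have h1 : (12 * x4) ^ 4 ≤ (R : ℝ) ^ 4 := pow_le_pow_left₀ (by positivity) hRl 4
    have h2 : (R : ℝ) ^ 4 ≤ (13 * x4) ^ 4 := pow_le_pow_left₀ (by positivity) hRu 4
    have h3 : (12 * x4) ^ 4 = 20736 * X := by rw [mul_pow, hx44]; norm_num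
    have h4 : (13 * x4) ^ 4 = 28561 * X := by rw [mul_pow, hx44]; norm_num
    rw [h3] at h1
    rw [h4] at h2
    exact ⟨by linarith, h1, h2⟩
  have hYR : 4800 * (Y : ℤ) ≤ (R : ℤ) ^ 4 := by
    have h1 : 4800 * (Y : ℝ) ≤ (R : ℝ) ^ 4 := by
      have := hR4.2.1
      linarith
    exact_mod_cast h1
  have hMR : (M : ℝ) ≤ ((R : ℝ) ^ θ) ^ 4 := by
    refine hMX.trans ?_
    rw [← Real.rpow_natCast ((R : ℝ) ^ θ) 4, ← Real.rpow_mul hR0.le, mul_comm θ,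
      Real.rpow_mul hR0.le, Real.rpow_natCast]
    exact Real.rpow_le_rpow hX0.le hR4.1 hθ.le
  rw [T1_sum hYR]
  have h := T1_main hθ hθ1 hθδ hCL hCc hCb (M := M) (Y := Y) hR1 hM1 hMR
  refine h.trans ?_
  rw [mul_assoc]
  apply mul_le_mul_of_nonneg_left _ (by positivity)
  have h1 : X ^ (θ / 4) ≤ (R : ℝ) ^ θ := by
    have h2 : X ^ (θ / 4) = x4 ^ θ := by
      rw [hx4, ← Real.rpow_mul hX0.le]
      congr 1
      ring
    rw [h2]
    exact Real.rpow_le_rpow hx0.le (by linarith) hθ.le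
  have h3 : X ^ (1 - θ / 4) = X / X ^ (θ / 4) := by
    rw [Real.rpow_sub hX0, Real.rpow_one]
  rw [h3, mul_div_assoc']
  exact div_le_div₀ (by positivity) hR4.2.2 (by positivity) h1

/-- (same block; uses CNT, Z1) -/
theorem F_bound (ε : ℝ) (hε : 0 < ε) : ∃ C : ℝ, ∀ n : ℕ, 1 ≤ n → |F n| ≤ C * (n : ℝ) ^ ε := by
  classical
  obtain ⟨C, hC⟩ := cnt ε hε
  refine ⟨C * 20 ^ ε, fun n hn => ?_⟩
  have h1 := hC (20 * n) n (by omega) hn
  have h2 : C * ((20 * n : ℕ) : ℝ) ^ ε = C * 20 ^ ε * (n : ℝ) ^ ε := by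
    push_cast
    rw [Real.mul_rpow (by norm_num) (Nat.cast_nonneg _)]
    ring
  rw [h2] at h1
  refine le_trans ?_ h1
  unfold F
  have h3 : ∀ w ∈ (bx (20 * n)).filter (fun w => W w ∧ N8 w = n), |Ph w * (St w : ℝ)| ≤ 1 := by
    intro w hw
    rw [Finset.mem_filter] at hw
    rw [T1_St]
    push_cast
    obtain ⟨a1, a2⟩ := Ph_bounds w
    have b1 : |Ph w| ≤ 1 := by rw [abs_of_nonneg a1]; exact a2
    have b2 : |(Sp w : ℝ)| ≤ 1 := T1_qs_abs _ (T1_Op_norm hw.2.1.1)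
    rw [abs_mul, abs_mul]
    exact mul_le_one₀ b1 (by positivity) (mul_le_one₀ b2 (abs_nonneg _) (T1s_abs w))
  refine (Finset.abs_sum_le_sum_abs _ _).trans ((Finset.sum_le_sum h3).trans ?_)
  rw [Finset.sum_const, nsmul_eq_mul, mul_one]
  have h4 : (bx (20 * n)).filter (fun w => W w ∧ N8 w = n) ⊆
      (bx (20 * n)).filter (fun w => N8 w = n) := by
    intro w hw
    rw [Finset.mem_filter] at hw ⊢
    exact ⟨hw.1, hw.2.2⟩
  exact_mod_cast Finset.card_le_card h4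

end Pool.Agent.TM32
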