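import Pool.Agent.Lib_helper51.TM32.Defs2
import Pool.Agent.Lib_helper96.TM32.Bil2
import Pool.Agent.Lib_helper45.TM32.Z3
import Pool.Agent.Lib_helper35.TM32.CNT
import Pool.Agent.Lib_helper33.TM32.Z2
import Pool.Agent.Lib_helper33.TM32.E4
import Pool.Agent.Lib_helper33.TM32.E3
import Pool.Agent.Lib_helper20.TM32.T1
import Pool.Agent.Lib_helper13.TM32.FD

/-!
TM32, block TYPE2 (helper97): `type2`.
-/

set_option autoImplicit false

namespace Pool.Agent.TM32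

open Zsqrtd

/-! ### stubs: Z1, T1, Z3, E3, E4, CNT, FD, BIL2 -/

/-! ### the block -/

theorem T2_odd {w : Z8} (h : Wp w) : N8 w % 2 = 1 := by
  rw [N8_eq]
  obtain ⟨⟨h1, h2⟩, h3⟩ := h
  obtain ⟨a, ha⟩ : ∃ a, w.re.re = 2 * a + 1 := ⟨w.re.re / 2, by omega⟩
  obtain ⟨b, hb⟩ : ∃ b, w.re.im = 2 * b := ⟨w.re.im / 2, by omega⟩
  obtain ⟨c, hc⟩ : ∃ c, w.im.re = 2 * c := ⟨w.im.re / 2, by omega⟩
  have hg : ∃ g, gg w = 2 * g + 1 := by
    refine ⟨2 * a ^ 2 + 2 * a - 2 * a * w.im.im + w.im.im ^ 2 - w.im.im +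
      2 * (c + b) ^ 2 + 2 * b ^ 2, ?_⟩
    unfold gg
    rw [ha, hb, hc]
    ring
  obtain ⟨g, hg⟩ := hg
  rw [hg]
  have : (2 * g + 1) ^ 2 - 2 * hh w ^ 2 = 2 * (2 * g ^ 2 + 2 * g - hh w ^ 2) + 1 := by ring
  rw [this]
  omega

theorem T2_F {Rp : ℕ → Finset Z8}
    (h1 : ∀ n : ℕ, ∀ w ∈ Rp n, Wp w ∧ N8 w = n ∧ gg w ^ 2 ≤ 9 * (n : ℤ))
    (h2 : ∀ n : ℕ, ∀ w ∈ Rp n, ∀ w' ∈ Rp n, Associated w w' → w = w')
    (h3 : ∀ n : ℕ, 1 ≤ n → ∀ w, Wp w → N8 w = n → ∃ w' ∈ Rp n, Associated w w')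
    {m k : ℕ} (hm : 1 ≤ m) (hk : 1 ≤ k) (hc : Nat.Coprime m k) (g : Z8 → ℝ)
    (hg : ∀ w w', Wp w → Wp w' → Associated w w' → g w = g w') :
    ∑ w ∈ Rp (m * k), g w = ∑ p ∈ Rp m ×ˢ Rp k, g (p.1 * p.2) := by
  have hmk : 1 ≤ m * k := Nat.mul_pos hm hk
  have key : ∀ p ∈ Rp m ×ˢ Rp k, ∃ w' ∈ Rp (m * k), Associated (p.1 * p.2) w' := by
    intro p hp
    rw [Finset.mem_product] at hp
    obtain ⟨a1, a2, _⟩ := h1 m _ hp.1
    obtain ⟨b1, b2, _⟩ := h1 k _ hp.2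
    apply h3 (m * k) hmk _ (Wp_mul a1 b1).1
    rw [N8_mul, a2, b2]
    push_cast
    rfl
  symm
  apply Finset.sum_bij (fun p hp => (key p hp).choose)
  · intro p hp
    exact (key p hp).choose_spec.1
  · intro p hp q hq h
    have e1 := (key p hp).choose_spec.2
    have e2 := (key q hq).choose_spec.2
    rw [h] at e1
    have e3 := e1.trans e2.symm
    rw [Finset.mem_product] at hp hq
    obtain ⟨f1, f2⟩ := factor_unique (by omega) (by omega) hc e3 (h1 m _ hp.1).2.1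
      (h1 m _ hq.1).2.1 (h1 k _ hp.2).2.1 (h1 k _ hq.2).2.1
    exact Prod.ext (h2 m _ hp.1 _ hq.1 f1) (h2 k _ hp.2 _ hq.2 f2)
  · intro w hw
    obtain ⟨a1, a2, _⟩ := h1 _ _ hw
    obtain ⟨x, y, rfl, hx, hy⟩ := factor (by omega) (by omega) hc (by
      rw [a2]
      push_cast
      rfl : N8 w = m * k)
    have hodd := T2_odd a1
    rw [N8_mul, Int.mul_emod] at hodd
    have hxo : N8 x % 2 = 1 := by
      rcases Int.emod_two_eq_zero_or_one (N8 x) with h | h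
      · rw [h] at hodd; norm_num at hodd
      · exact h
    have hyo : N8 y % 2 = 1 := by
      rcases Int.emod_two_eq_zero_or_one (N8 y) with h | h
      · rw [h] at hodd; norm_num at hodd
      · exact h
    obtain ⟨u, hu, hux⟩ := exists_Wp hxo
    obtain ⟨v, hv, hvy⟩ := exists_Wp hyo
    obtain ⟨x', hx', hxx⟩ := h3 m hm _ hux (by rw [N8_mul, hu, one_mul, hx])
    obtain ⟨y', hy', hyy⟩ := h3 k hk _ hvy (by rw [N8_mul, hv, one_mul, hy])
    have hu' := isUnit_iff.2 hu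
    have hv' := isUnit_iff.2 hv
    have f1 : Associated x x' := (associated_unit_mul_left x u hu').symm.trans hxx |>.trans
      (Associated.refl _)
    have f2 : Associated y y' := (associated_unit_mul_left y v hv').symm.trans hyy
    have hp : (x', y') ∈ Rp m ×ˢ Rp k := Finset.mem_product.2 ⟨hx', hy'⟩
    refine ⟨(x', y'), hp, ?_⟩
    have e1 := (key _ hp).choose_spec
    exact h2 _ _ e1.1 _ hw (e1.2.symm.trans (f1.mul_mul f2).symm)
  · intro p hp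
    have e1 := (key _ hp).choose_spec
    rw [Finset.mem_product] at hp
    exact hg _ _ (Wp_mul (h1 m _ hp.1).1 (h1 k _ hp.2).1).1 (h1 _ _ e1.1).1 e1.2

/-- classes modulo 16 -/
abbrev T2K := (ZMod 16 × ZMod 16) × (ZMod 16 × ZMod 16)

/-- the class modulo 16 -/
def T2cl (x : Z8) : T2K := (((x.re.re : ℤ), (x.re.im : ℤ)), ((x.im.re : ℤ), (x.im.im : ℤ)))

theorem T2_coord {x x' : Z8} {a b c d : ℤ} (n : ℤ) (ha : x.re.re - x'.re.re = n * a)
    (hb : x.re.im - x'.re.im = n * b) (hc : x.im.re - x'.im.re = n * c)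
    (hd : x.im.im - x'.im.im = n * d) : x - x' = (n : Z8) * ⟨⟨a, b⟩, ⟨c, d⟩⟩ := by
  ext
  · simp [ha]
  · simp [hb]
  · simp [hc]
  · simp [hd]

theorem T2_cl {x x' : Z8} (h : T2cl x = T2cl x') : (16 : Z8) ∣ x - x' := by
  unfold T2cl at h
  simp only [Prod.mk.injEq] at h
  obtain ⟨⟨h1, h2⟩, h3, h4⟩ := h
  have key : ∀ a b : ℤ, (a : ZMod 16) = (b : ZMod 16) → ∃ c, a - b = 16 * c := by
    intro a b h
    obtain ⟨c, hc⟩ := (ZMod.intCast_eq_intCast_iff_dvd_sub b a 16).1 h.symm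
    exact ⟨c, by exact_mod_cast hc⟩
  obtain ⟨a, ha⟩ := key _ _ h1
  obtain ⟨b, hb⟩ := key _ _ h2
  obtain ⟨c, hc⟩ := key _ _ h3
  obtain ⟨d, hd⟩ := key _ _ h4
  refine ⟨⟨⟨a, b⟩, ⟨c, d⟩⟩, ?_⟩
  have e : (16 : Z8) = ((16 : ℤ) : Z8) := by norm_num
  rw [e]
  exact T2_coord 16 ha hb hc hd

open Classical in
/-- the decomposition into classes -/
theorem T2_class {κ : Type} [Fintype κ] (cl : Z8 → κ) (X Y : Finset Z8) (A B : Z8 → ℝ) (hA : ∀ x, |A x| ≤ 1) (hB : ∀ y, |B y| ≤ 1)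
    (s : Z8 → Z8 → ℝ) (hs : ∀ x y, |s x y| ≤ 1)
    (hcl : ∀ x x' y y', cl x = cl x' → cl y = cl y' → s x y = s x' y') (V : ℝ)
    (hV : ∀ α β : Z8 → ℝ, (∀ x, |α x| ≤ 1) → (∀ y, |β y| ≤ 1) →
      |∑ x ∈ X, ∑ y ∈ Y, α x * β y * T x y| ≤ V) :
    |∑ x ∈ X, ∑ y ∈ Y, A x * B y * s x y * T x y| ≤ (Fintype.card κ : ℝ) ^ 2 * V := by
  set rep : κ → Z8 := fun t => if H : ∃ x, cl x = t then H.choose else 0 with hrep
  have hr : ∀ x, cl (rep (cl x)) = cl x := by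
    intro x
    have H : ∃ x', cl x' = cl x := ⟨x, rfl⟩
    rw [hrep]
    simp only
    rw [dif_pos H]
    exact H.choose_spec
  have h1 : ∑ x ∈ X, ∑ y ∈ Y, A x * B y * s x y * T x y =
      ∑ t : κ × κ, s (rep t.1) (rep t.2) * ∑ x ∈ X, ∑ y ∈ Y,
        (if cl x = t.1 then A x else 0) * (if cl y = t.2 then B y else 0) * T x y := by
    symm
    simp_rw [Finset.mul_sum]
    rw [Finset.sum_comm]
    apply Finset.sum_congr rfl
    intro x _
    rw [Finset.sum_comm]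
    apply Finset.sum_congr rfl
    intro y _
    rw [Finset.sum_eq_single_of_mem (cl x, cl y) (Finset.mem_univ _)]
    · simp only [if_true]
      rw [hcl x (rep (cl x)) y (rep (cl y)) (hr x).symm (hr y).symm]
      ring
    · rintro ⟨t, t'⟩ _ hne
      simp only
      by_cases ha : cl x = t
      · by_cases hb : cl y = t'
        · exact absurd (by rw [ha, hb]) hne
        · rw [if_neg hb]
          ring
      · rw [if_neg ha]
        ring
  rw [h1]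
  refine (Finset.abs_sum_le_sum_abs _ _).trans ?_
  have h2 : ∀ t ∈ (Finset.univ : Finset (κ × κ)), |s (rep t.1) (rep t.2) *
      ∑ x ∈ X, ∑ y ∈ Y,
        (if cl x = t.1 then A x else 0) * (if cl y = t.2 then B y else 0) * T x y| ≤ V := by
    intro t _
    rw [abs_mul]
    have h3 := hV (fun x => if cl x = t.1 then A x else 0)
      (fun y => if cl y = t.2 then B y else 0)
      (fun x => by
        split_ifs
        · exact hA x
        · simp)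
      (fun y => by
        split_ifs
        · exact hB y
        · simp)
    calc |s (rep t.1) (rep t.2)| * |∑ x ∈ X, ∑ y ∈ Y,
        (if cl x = t.1 then A x else 0) * (if cl y = t.2 then B y else 0) * T x y| ≤
        1 * |∑ x ∈ X, ∑ y ∈ Y,
        (if cl x = t.1 then A x else 0) * (if cl y = t.2 then B y else 0) * T x y| :=
          mul_le_mul_of_nonneg_right (hs _ _) (abs_nonneg _)
      _ ≤ V := by rw [one_mul]; exact h3
  refine (Finset.sum_le_sum h2).trans ?_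
  rw [Finset.sum_const, nsmul_eq_mul, Finset.card_univ]
  apply le_of_eq
  rw [Fintype.card_prod]
  push_cast
  ring

theorem T2_qs_abs (x : Zs) {y : Zs} (hy : y.norm % 2 = 1) : |(qs x y : ℝ)| ≤ 1 := by
  by_cases h : IsCoprime x y
  · rcases qs_pm hy h with h1 | h1 <;> rw [h1] <;> norm_num
  · rw [qs_zero hy h]
    norm_num

theorem T2_Sp_abs {x : Z8} (hx : Wp x) : |(Sp x : ℝ)| ≤ 1 := by
  unfold Sp
  apply T2_qs_abs
  rw [nv]
  obtain ⟨⟨h1, h2⟩, _⟩ := hx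
  have h3 : x.re.re ^ 2 % 2 = 1 := by
    rw [pow_two, Int.mul_emod, h1]
    norm_num
  omega

theorem T2_mu (m k M : ℕ) (hm : 1 ≤ m) (hM : m ≤ M) :
    (∑ d ∈ Finset.Icc 1 M, if d ∣ m ∧ d ∣ k then ((ArithmeticFunction.moebius d : ℤ) : ℝ) else 0) =
      if Nat.Coprime m k then 1 else 0 := by
  have h1 : ∑ i ∈ (Nat.gcd m k).divisors, ArithmeticFunction.moebius i =
      if Nat.gcd m k = 1 then 1 else 0 := by
    rw [← ArithmeticFunction.coe_mul_zeta_apply, ArithmeticFunction.moebius_mul_coe_zeta,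
      ArithmeticFunction.one_apply]
  have h2 : (Nat.gcd m k).divisors = (Finset.Icc 1 M).filter (fun d => d ∣ m ∧ d ∣ k) := by
    ext d
    rw [Nat.mem_divisors, Finset.mem_filter, Finset.mem_Icc, Nat.dvd_gcd_iff]
    constructor
    · rintro ⟨⟨a, b⟩, _⟩
      exact ⟨⟨Nat.pos_of_dvd_of_pos a hm, (Nat.le_of_dvd hm a).trans hM⟩, a, b⟩
    · rintro ⟨_, a, b⟩
      exact ⟨⟨a, b⟩, (Nat.gcd_pos_of_pos_left _ hm).ne'⟩
  rw [← Finset.sum_filter, ← h2]
  have h3 : ((∑ i ∈ (Nat.gcd m k).divisors, ArithmeticFunction.moebius i : ℤ) : ℝ) =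
      (((if Nat.gcd m k = 1 then 1 else 0 : ℤ)) : ℝ) := by rw [h1]
  push_cast at h3
  exact h3

/-- the absolute value of the norm -/
def T2N (x : Z8) : ℕ := (N8 x).natAbs

open Classical in
/-- first coefficient -/
noncomputable def T2A (a : ℕ → ℝ) (d : ℕ) (x : Z8) : ℝ :=
  if Wp x ∧ Squarefree (T2N x) ∧ d ∣ T2N x then a (T2N x) * Sp x else 0

open Classical in
/-- second coefficient -/
noncomputable def T2B (b : ℕ → ℝ) (d : ℕ) (y : Z8) : ℝ :=
  if Wp y ∧ d ∣ T2N y then b (T2N y) * Sp y else 0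

open Classical in
/-- the sign -/
noncomputable def T2s (σ : Z8 → Z8 → ℤ) (x y : Z8) : ℝ := if (W x ↔ W y) then (σ x y : ℝ) else 0

theorem T2A_abs {a : ℕ → ℝ} (ha : ∀ m, |a m| ≤ 1) (d : ℕ) (x : Z8) : |T2A a d x| ≤ 1 := by
  unfold T2A
  split_ifs with h
  · rw [abs_mul]
    exact mul_le_one₀ (ha _) (abs_nonneg _) (T2_Sp_abs h.1)
  · simp

theorem T2B_abs {b : ℕ → ℝ} (hb : ∀ m, |b m| ≤ 1) (d : ℕ) (x : Z8) : |T2B b d x| ≤ 1 := by
  unfold T2B
  split_ifs with h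
  · rw [abs_mul]
    exact mul_le_one₀ (hb _) (abs_nonneg _) (T2_Sp_abs h.1)
  · simp

theorem T2s_abs {σ : Z8 → Z8 → ℤ} (hσ : ∀ x y, σ x y = 1 ∨ σ x y = -1) (x y : Z8) :
    |T2s σ x y| ≤ 1 := by
  unfold T2s
  split_ifs
  · rcases hσ x y with h | h <;> rw [h] <;> norm_num
  · simp

theorem T2_W {x x' : Z8} (h : T2cl x = T2cl x') : W x ↔ W x' := by
  unfold T2cl at h
  simp only [Prod.mk.injEq] at h
  obtain ⟨⟨h1, h2⟩, h3, h4⟩ := h
  have key : ∀ a b : ℤ, (a : ZMod 16) = (b : ZMod 16) → ∃ c, a - b = 16 * c := by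
    intro a b h
    obtain ⟨c, hc⟩ := (ZMod.intCast_eq_intCast_iff_dvd_sub b a 16).1 h.symm
    exact ⟨c, by exact_mod_cast hc⟩
  obtain ⟨a, ha⟩ := key _ _ h1
  obtain ⟨b, hb⟩ := key _ _ h2
  obtain ⟨c, hc⟩ := key _ _ h3
  unfold W Op
  omega

theorem T2s_cl {σ : Z8 → Z8 → ℤ}
    (hσ : ∀ x x' y y' : Z8, (16 : Z8) ∣ x - x' → (16 : Z8) ∣ y - y' → σ x y = σ x' y')
    (x x' y y' : Z8) (h : T2cl x = T2cl x') (h' : T2cl y = T2cl y') :
    T2s σ x y = T2s σ x' y' := by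
  unfold T2s
  rw [hσ x x' y y' (T2_cl h) (T2_cl h')]
  have e : (W x ↔ W y) ↔ (W x' ↔ W y') := by rw [T2_W h, T2_W h']
  by_cases hc : (W x ↔ W y)
  · rw [if_pos hc, if_pos (e.1 hc)]
  · rw [if_neg hc, if_neg (fun h => hc (e.2 h))]

open Classical in
theorem T2_pair {Rp : ℕ → Finset Z8} {σ : Z8 → Z8 → ℤ}
    (h1 : ∀ n : ℕ, ∀ w ∈ Rp n, Wp w ∧ N8 w = n ∧ gg w ^ 2 ≤ 9 * (n : ℤ))
    (h2 : ∀ n : ℕ, ∀ w ∈ Rp n, ∀ w' ∈ Rp n, Associated w w' → w = w')
    (h3 : ∀ n : ℕ, 1 ≤ n → ∀ w, Wp w → N8 w = n → ∃ w' ∈ Rp n, Associated w w')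
    (h4 : ∀ w w', W w → Wp w' → Associated w w' → W w' ∧ St w = St w')
    (h5 : ∀ n : ℕ, 1 ≤ n → F n = 4 * ∑ w ∈ (Rp n).filter W, (St w : ℝ))
    (hσ : ∀ x y, Wp x → Wp y → W (x * y) → IsCoprime (x * y).re (x * y).im →
      St (x * y) = Sp x * Sp y * T x y * σ x y) {m k : ℕ} (hm : 1 ≤ m) (hk : 1 ≤ k)
    (hs : Squarefree (m * k)) :
    F (m * k) = 4 * ∑ x ∈ Rp m, ∑ y ∈ Rp k, (Sp x : ℝ) * Sp y * T2s σ x y * T x y := by
  rw [h5 _ (Nat.mul_pos hm hk), Finset.sum_filter,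
    T2_F h1 h2 h3 hm hk (Nat.coprime_of_squarefree_mul hs) (fun w => if W w then (St w : ℝ) else 0),
    Finset.sum_product]
  · congr 1
    apply Finset.sum_congr rfl
    intro x hx
    apply Finset.sum_congr rfl
    intro y hy
    obtain ⟨a1, a2, _⟩ := h1 m _ hx
    obtain ⟨b1, b2, _⟩ := h1 k _ hy
    have hW := (Wp_mul a1 b1).2
    have hN : N8 (x * y) = ((m * k : ℕ) : ℤ) := by
      rw [N8_mul, a2, b2]
      push_cast
      rfl
    have hco : IsCoprime (x * y).re (x * y).im := by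
      apply sqf_coprime
      rw [hN]
      exact Int.squarefree_natCast.2 hs
    unfold T2s
    by_cases hc : W (x * y)
    · rw [if_pos (hW.1 hc)]
      simp only
      rw [if_pos hc, hσ x y a1 b1 hc hco]
      push_cast
      ring
    · rw [if_neg (fun h => hc (hW.2 h))]
      simp only
      rw [if_neg hc]
      ring
  · intro w w' hw hw' ha
    by_cases hc : W w
    · obtain ⟨e1, e2⟩ := h4 w w' hc hw' ha
      rw [if_pos hc, if_pos e1, e2]
    · rw [if_neg hc, if_neg]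
      intro hc'
      exact hc (h4 w' w hc' hw ha.symm).1

open Classical in
theorem T2_biUnion {Rp : ℕ → Finset Z8}
    (h1 : ∀ n : ℕ, ∀ w ∈ Rp n, Wp w ∧ N8 w = n ∧ gg w ^ 2 ≤ 9 * (n : ℤ)) (I : Finset ℕ)
    (f : Z8 → ℝ) : ∑ x ∈ I.biUnion Rp, f x = ∑ m ∈ I, ∑ x ∈ Rp m, f x := by
  apply Finset.sum_biUnion
  intro m _ m' _ hne
  rw [Function.onFun, Finset.disjoint_left]
  intro x hx hx'
  apply hne
  have e1 := (h1 m x hx).2.1
  have e2 := (h1 m' x hx').2.1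
  rw [e1] at e2
  exact_mod_cast e2

open Classical in
theorem T2_sum {Rp : ℕ → Finset Z8} {σ : Z8 → Z8 → ℤ}
    (h1 : ∀ n : ℕ, ∀ w ∈ Rp n, Wp w ∧ N8 w = n ∧ gg w ^ 2 ≤ 9 * (n : ℤ))
    (h2 : ∀ n : ℕ, ∀ w ∈ Rp n, ∀ w' ∈ Rp n, Associated w w' → w = w')
    (h3 : ∀ n : ℕ, 1 ≤ n → ∀ w, Wp w → N8 w = n → ∃ w' ∈ Rp n, Associated w w')
    (h4 : ∀ w w', W w → Wp w' → Associated w w' → W w' ∧ St w = St w')
    (h5 : ∀ n : ℕ, 1 ≤ n → F n = 4 * ∑ w ∈ (Rp n).filter W, (St w : ℝ))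
    (hσ : ∀ x y, Wp x → Wp y → W (x * y) → IsCoprime (x * y).re (x * y).im →
      St (x * y) = Sp x * Sp y * T x y * σ x y) (M K : ℕ) (a b : ℕ → ℝ) :
    ∑ m ∈ Finset.Icc 1 M, ∑ k ∈ Finset.Icc 1 K,
        a m * b k * (if Squarefree (m * k) then F (m * k) else 0) =
      4 * ∑ d ∈ Finset.Icc 1 M, ((ArithmeticFunction.moebius d : ℤ) : ℝ) *
        ∑ x ∈ (Finset.Icc 1 M).biUnion Rp, ∑ y ∈ ((Finset.Icc 1 K).filter Squarefree).biUnion Rp,
          T2A a d x * T2B b d y * T2s σ x y * T x y := by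
  -- one pair (m, k)
  have key : ∀ m ∈ Finset.Icc 1 M, ∀ k ∈ Finset.Icc 1 K,
      a m * b k * (if Squarefree (m * k) then F (m * k) else 0) =
      4 * ∑ d ∈ Finset.Icc 1 M, ((ArithmeticFunction.moebius d : ℤ) : ℝ) *
        (if Squarefree k then ∑ x ∈ Rp m, ∑ y ∈ Rp k,
          T2A a d x * T2B b d y * T2s σ x y * T x y else 0) := by
    intro m hm k hk
    rw [Finset.mem_Icc] at hm hk
    -- the inner sum
    have e1 : ∀ d, ∑ x ∈ Rp m, ∑ y ∈ Rp k, T2A a d x * T2B b d y * T2s σ x y * T x y =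
        (if Squarefree m ∧ d ∣ m ∧ d ∣ k then
          a m * b k * ∑ x ∈ Rp m, ∑ y ∈ Rp k, (Sp x : ℝ) * Sp y * T2s σ x y * T x y else 0) := by
      intro d
      have e2 : ∀ x ∈ Rp m, T2A a d x = if Squarefree m ∧ d ∣ m then a m * (Sp x : ℝ) else 0 := by
        intro x hx
        obtain ⟨a1, a2, _⟩ := h1 m x hx
        have a3 : T2N x = m := by
          unfold T2N
          rw [a2]
          exact Int.natAbs_natCast m
        unfold T2A
        rw [a3]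
        by_cases hc : Squarefree m ∧ d ∣ m
        · rw [if_pos hc, if_pos ⟨a1, hc.1, hc.2⟩]
        · rw [if_neg hc, if_neg (fun h => hc h.2)]
      have e3 : ∀ y ∈ Rp k, T2B b d y = if d ∣ k then b k * (Sp y : ℝ) else 0 := by
        intro y hy
        obtain ⟨a1, a2, _⟩ := h1 k y hy
        have a3 : T2N y = k := by
          unfold T2N
          rw [a2]
          exact Int.natAbs_natCast k
        unfold T2B
        rw [a3]
        by_cases hc : d ∣ k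
        · rw [if_pos hc, if_pos ⟨a1, hc⟩]
        · rw [if_neg hc, if_neg (fun h => hc h.2)]
      by_cases hc : Squarefree m ∧ d ∣ m ∧ d ∣ k
      · rw [if_pos hc, Finset.mul_sum]
        apply Finset.sum_congr rfl
        intro x hx
        rw [Finset.mul_sum]
        apply Finset.sum_congr rfl
        intro y hy
        rw [e2 x hx, e3 y hy, if_pos ⟨hc.1, hc.2.1⟩, if_pos hc.2.2]
        ring
      · rw [if_neg hc]
        apply Finset.sum_eq_zero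
        intro x hx
        apply Finset.sum_eq_zero
        intro y hy
        rw [e2 x hx, e3 y hy]
        by_cases hc1 : Squarefree m ∧ d ∣ m
        · rw [if_neg (fun h => hc ⟨hc1.1, hc1.2, h⟩)]
          ring
        · rw [if_neg hc1]
          ring
    simp_rw [e1]
    have hmu := T2_mu m k M hm.1 hm.2
    by_cases hs : Squarefree (m * k)
    · obtain ⟨c1, c2, c3⟩ := Nat.squarefree_mul_iff.1 hs
      rw [if_pos hs, T2_pair h1 h2 h3 h4 h5 hσ hm.1 hk.1 hs]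
      rw [if_pos c1] at hmu
      have e4 : ∑ d ∈ Finset.Icc 1 M, ((ArithmeticFunction.moebius d : ℤ) : ℝ) *
          (if Squarefree k then (if Squarefree m ∧ d ∣ m ∧ d ∣ k then
            a m * b k * ∑ x ∈ Rp m, ∑ y ∈ Rp k, (Sp x : ℝ) * Sp y * T2s σ x y * T x y
            else 0) else 0) =
          (∑ d ∈ Finset.Icc 1 M, if d ∣ m ∧ d ∣ k then
            ((ArithmeticFunction.moebius d : ℤ) : ℝ) else 0) *
            (a m * b k * ∑ x ∈ Rp m, ∑ y ∈ Rp k, (Sp x : ℝ) * Sp y * T2s σ x y * T x y) := by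
        rw [Finset.sum_mul]
        apply Finset.sum_congr rfl
        intro d _
        rw [if_pos c3]
        by_cases hc : d ∣ m ∧ d ∣ k
        · rw [if_pos ⟨c2, hc⟩, if_pos hc]
        · rw [if_neg (fun h => hc h.2), if_neg hc]
          ring
      rw [e4, hmu]
      ring
    · rw [if_neg hs, mul_zero]
      symm
      by_cases c3 : Squarefree k
      · by_cases c2 : Squarefree m
        · have c1 : ¬ Nat.Coprime m k := fun h => hs (Nat.squarefree_mul_iff.2 ⟨h, c2, c3⟩)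
          rw [if_neg c1] at hmu
          have e4 : ∑ d ∈ Finset.Icc 1 M, ((ArithmeticFunction.moebius d : ℤ) : ℝ) *
              (if Squarefree k then (if Squarefree m ∧ d ∣ m ∧ d ∣ k then
                a m * b k * ∑ x ∈ Rp m, ∑ y ∈ Rp k, (Sp x : ℝ) * Sp y * T2s σ x y * T x y
                else 0) else 0) =
              (∑ d ∈ Finset.Icc 1 M, if d ∣ m ∧ d ∣ k then
                ((ArithmeticFunction.moebius d : ℤ) : ℝ) else 0) *
                (a m * b k * ∑ x ∈ Rp m, ∑ y ∈ Rp k,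
                  (Sp x : ℝ) * Sp y * T2s σ x y * T x y) := by
            rw [Finset.sum_mul]
            apply Finset.sum_congr rfl
            intro d _
            rw [if_pos c3]
            by_cases hc : d ∣ m ∧ d ∣ k
            · rw [if_pos ⟨c2, hc⟩, if_pos hc]
            · rw [if_neg (fun h => hc h.2), if_neg hc]
              ring
          rw [e4, hmu]
          ring
        · have : ∀ d ∈ Finset.Icc 1 M, ((ArithmeticFunction.moebius d : ℤ) : ℝ) *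
              (if Squarefree k then (if Squarefree m ∧ d ∣ m ∧ d ∣ k then
                a m * b k * ∑ x ∈ Rp m, ∑ y ∈ Rp k, (Sp x : ℝ) * Sp y * T2s σ x y * T x y
                else 0) else 0) = 0 := by
            intro d _
            rw [if_pos c3, if_neg (fun h => c2 h.1), mul_zero]
          rw [Finset.sum_eq_zero this, mul_zero]
      · have : ∀ d ∈ Finset.Icc 1 M, ((ArithmeticFunction.moebius d : ℤ) : ℝ) *
            (if Squarefree k then (if Squarefree m ∧ d ∣ m ∧ d ∣ k then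
              a m * b k * ∑ x ∈ Rp m, ∑ y ∈ Rp k, (Sp x : ℝ) * Sp y * T2s σ x y * T x y
              else 0) else 0) = 0 := by
          intro d _
          rw [if_neg c3, mul_zero]
        rw [Finset.sum_eq_zero this, mul_zero]
  rw [Finset.sum_congr rfl (fun m hm => Finset.sum_congr rfl (fun k hk => key m hm k hk))]
  simp_rw [T2_biUnion h1]
  -- move the sums
  have e5 : ∀ d, ∑ m ∈ Finset.Icc 1 M, ∑ x ∈ Rp m, ∑ k ∈ (Finset.Icc 1 K).filter Squarefree,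
      ∑ y ∈ Rp k, T2A a d x * T2B b d y * T2s σ x y * T x y =
      ∑ m ∈ Finset.Icc 1 M, ∑ k ∈ Finset.Icc 1 K, (if Squarefree k then ∑ x ∈ Rp m, ∑ y ∈ Rp k,
          T2A a d x * T2B b d y * T2s σ x y * T x y else 0) := by
    intro d
    apply Finset.sum_congr rfl
    intro m _
    rw [Finset.sum_comm, Finset.sum_filter]
  simp_rw [e5]
  rw [Finset.mul_sum]
  simp_rw [← Finset.mul_sum]
  congr 1
  simp_rw [Finset.mul_sum]
  rw [Finset.sum_comm (s := Finset.Icc 1 M) (t := Finset.Icc 1 M)]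
  apply Finset.sum_congr rfl
  intro m _
  rw [Finset.sum_comm]

theorem T2_bx {R : ℕ} {w : Z8} (h : (|w.re.re| ≤ R ∧ |w.re.im| ≤ R) ∧
    (|w.im.re| ≤ R ∧ |w.im.im| ≤ R)) : w ∈ bx R := by
  unfold bx
  simp only [Finset.mem_map, Finset.mem_product, Finset.mem_Icc, Function.Embedding.coeFn_mk,
    Prod.exists]
  simp only [abs_le] at h
  exact ⟨w.re.re, w.re.im, w.im.re, w.im.im, h, rfl⟩

theorem T2_coordb {w : Z8} {n R : ℕ} (hg : gg w ^ 2 ≤ 9 * (n : ℤ))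
    (hR : 36 * (n : ℤ) ≤ (R : ℤ) ^ 4) : w ∈ bx R := by
  have key : ∀ c : ℤ, c ^ 2 ≤ 2 * gg w → |c| ≤ R := by
    intro c hc
    by_contra hlt
    rw [not_le] at hlt
    have h0 := gg_nonneg w
    have h1 : (c ^ 2) ^ 2 ≤ (2 * gg w) ^ 2 := pow_le_pow_left₀ (sq_nonneg c) hc 2
    have h2 : (R : ℤ) ^ 4 < |c| ^ 4 := pow_lt_pow_left₀ hlt (by positivity) (by norm_num)
    have h3 : |c| ^ 4 = (c ^ 2) ^ 2 := by rw [← sq_abs c]; ring
    nlinarith
  have hgg : gg w = (w.re.re - w.im.im) ^ 2 + (w.im.re + w.re.im) ^ 2 + w.im.im ^ 2 +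
    w.re.im ^ 2 := rfl
  apply T2_bx
  refine ⟨⟨key _ ?_, key _ ?_⟩, key _ ?_, key _ ?_⟩
  · rw [hgg]
    nlinarith [sq_nonneg (w.re.re - w.im.im - w.im.im), sq_nonneg (w.im.re + w.re.im),
      sq_nonneg w.re.im]
  · rw [hgg]
    nlinarith [sq_nonneg (w.re.re - w.im.im), sq_nonneg (w.im.re + w.re.im),
      sq_nonneg w.re.im, sq_nonneg w.im.im]
  · rw [hgg]
    nlinarith [sq_nonneg (w.re.re - w.im.im), sq_nonneg (w.im.re + w.re.im + w.re.im),
      sq_nonneg w.re.im, sq_nonneg w.im.im]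
  · rw [hgg]
    nlinarith [sq_nonneg (w.re.re - w.im.im), sq_nonneg (w.im.re + w.re.im),
      sq_nonneg w.re.im, sq_nonneg w.im.im]

theorem T2_card {Rp : ℕ → Finset Z8} {ε C : ℝ} (hε : 0 < ε)
    (h1 : ∀ n : ℕ, ∀ w ∈ Rp n, Wp w ∧ N8 w = n ∧ gg w ^ 2 ≤ 9 * (n : ℤ))
    (hC : ∀ R n : ℕ, 1 ≤ R → 1 ≤ n →
      (((bx R).filter (fun w => N8 w = n)).card : ℝ) ≤ C * (R : ℝ) ^ ε)
    {n : ℕ} (hn : 1 ≤ n) {Z : ℝ} (hZ : (n : ℝ) ≤ Z) :
    ((Rp n).card : ℝ) ≤ |C| * (20 ^ ε * Z ^ ε) := by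
  have h2 := hC (20 * n) n (by omega) hn
  have h3 : Rp n ⊆ (bx (20 * n)).filter (fun w => N8 w = n) := by
    intro w hw
    obtain ⟨_, a2, a3⟩ := h1 n w hw
    rw [Finset.mem_filter]
    refine ⟨T2_coordb a3 ?_, a2⟩
    push_cast
    have : (1 : ℤ) ≤ n := by exact_mod_cast hn
    have h3 : (1 : ℤ) ≤ (n : ℤ) ^ 3 := one_le_pow₀ this
    nlinarith
  have h4 : ((Rp n).card : ℝ) ≤ (((bx (20 * n)).filter (fun w => N8 w = n)).card : ℝ) := by
    exact_mod_cast Finset.card_le_card h3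
  refine h4.trans (h2.trans ?_)
  push_cast
  rw [Real.mul_rpow (by norm_num) (Nat.cast_nonneg _)]
  calc C * ((20 : ℝ) ^ ε * (n : ℝ) ^ ε) ≤ |C| * ((20 : ℝ) ^ ε * (n : ℝ) ^ ε) :=
        mul_le_mul_of_nonneg_right (le_abs_self _) (by positivity)
    _ ≤ |C| * (20 ^ ε * Z ^ ε) := by
        apply mul_le_mul_of_nonneg_left _ (abs_nonneg _)
        apply mul_le_mul_of_nonneg_left _ (by positivity)
        exact Real.rpow_le_rpow (Nat.cast_nonneg _) hZ hε.le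

/-- sums over multiples -/
theorem T2_mult (f : ℕ → ℝ) (B : ℝ) (hB : 0 ≤ B) (d M : ℕ)
    (h0 : ∀ m ∈ Finset.Icc 1 M, ¬ d ∣ m → f m ≤ 0) (hf : ∀ m ∈ Finset.Icc 1 M, f m ≤ B) :
    ∑ m ∈ Finset.Icc 1 M, f m ≤ (M : ℝ) / d * B := by
  have h1 : ∑ m ∈ Finset.Icc 1 M, f m ≤ ∑ m ∈ (Finset.Icc 1 M).filter (fun m => d ∣ m), B := by
    rw [Finset.sum_filter]
    apply Finset.sum_le_sum
    intro m hm
    split_ifs with h
    · exact hf m hm
    · exact h0 m hm h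
  refine h1.trans ?_
  rw [Finset.sum_const, nsmul_eq_mul]
  apply mul_le_mul_of_nonneg_right _ hB
  have h2 : (Finset.Icc 1 M).filter (fun m => d ∣ m) = (Finset.Ioc 0 M).filter (fun m => d ∣ m) := by
    rfl
  rw [h2, Nat.Ioc_filter_dvd_card_eq_div]
  exact Nat.cast_div_le

open Classical in
/-- the trivial bound for one `d` -/
theorem T2_triv {Rp : ℕ → Finset Z8} {σ : Z8 → Z8 → ℤ}
    (h1 : ∀ n : ℕ, ∀ w ∈ Rp n, Wp w ∧ N8 w = n ∧ gg w ^ 2 ≤ 9 * (n : ℤ))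
    (hσ : ∀ x y, σ x y = 1 ∨ σ x y = -1)
    {a b : ℕ → ℝ} (ha : ∀ m, |a m| ≤ 1) (hb : ∀ m, |b m| ≤ 1) (M K d : ℕ) (B : ℝ)
    (hB : 0 ≤ B) (hM : ∀ m ∈ Finset.Icc 1 M, ((Rp m).card : ℝ) ≤ B)
    (hK : ∀ m ∈ Finset.Icc 1 K, ((Rp m).card : ℝ) ≤ B) :
    |∑ x ∈ (Finset.Icc 1 M).biUnion Rp, ∑ y ∈ ((Finset.Icc 1 K).filter Squarefree).biUnion Rp,
          T2A a d x * T2B b d y * T2s σ x y * T x y| ≤
      ((M : ℝ) / d * B) * ((K : ℝ) / d * B) := by
  have hN : ∀ n, ∀ x ∈ Rp n, T2N x = n := by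
    intro n x hx
    unfold T2N
    rw [(h1 n x hx).2.1]
    exact Int.natAbs_natCast n
  have e1 : ∑ x ∈ (Finset.Icc 1 M).biUnion Rp, |T2A a d x| ≤ (M : ℝ) / d * B := by
    rw [T2_biUnion h1]
    apply T2_mult _ B hB d M
    · intro m _ hdm
      apply le_of_eq
      apply Finset.sum_eq_zero
      intro x hx
      unfold T2A
      rw [if_neg, abs_zero]
      rintro ⟨_, _, h⟩
      rw [hN m x hx] at h
      exact hdm h
    · intro m hm
      refine le_trans ?_ (hM m hm)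
      refine (Finset.sum_le_sum (fun x _ => T2A_abs ha d x)).trans ?_
      simp
  have e2 : ∑ y ∈ ((Finset.Icc 1 K).filter Squarefree).biUnion Rp, |T2B b d y| ≤
      (K : ℝ) / d * B := by
    rw [T2_biUnion h1, Finset.sum_filter]
    apply T2_mult _ B hB d K
    · intro m _ hdm
      split_ifs
      · apply le_of_eq
        apply Finset.sum_eq_zero
        intro x hx
        unfold T2B
        rw [if_neg, abs_zero]
        rintro ⟨_, h⟩
        rw [hN m x hx] at h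
        exact hdm h
      · exact le_rfl
    · intro m hm
      split_ifs
      · refine le_trans ?_ (hK m hm)
        refine (Finset.sum_le_sum (fun x _ => T2B_abs hb d x)).trans ?_
        simp
      · exact hB
  have e3 : |∑ x ∈ (Finset.Icc 1 M).biUnion Rp,
      ∑ y ∈ ((Finset.Icc 1 K).filter Squarefree).biUnion Rp,
          T2A a d x * T2B b d y * T2s σ x y * T x y| ≤
      (∑ x ∈ (Finset.Icc 1 M).biUnion Rp, |T2A a d x|) *
        ∑ y ∈ ((Finset.Icc 1 K).filter Squarefree).biUnion Rp, |T2B b d y| := by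
    rw [Finset.sum_mul_sum]
    refine (Finset.abs_sum_le_sum_abs _ _).trans (Finset.sum_le_sum fun x hx => ?_)
    refine (Finset.abs_sum_le_sum_abs _ _).trans (Finset.sum_le_sum fun y hy => ?_)
    rw [Finset.mem_biUnion] at hy
    obtain ⟨k, hk, hy⟩ := hy
    rw [Finset.mem_filter] at hk
    obtain ⟨b1, b2, _⟩ := h1 k y hy
    have hT : |(T x y : ℝ)| ≤ 1 := by
      have hco : IsCoprime y.re y.im := by
        apply sqf_coprime
        rw [b2]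
        exact Int.squarefree_natCast.2 hk.2
      rcases T_val x b1 hco with h | h | h <;> rw [h] <;> norm_num
    have hs := T2s_abs hσ x y
    rw [abs_mul, abs_mul, abs_mul]
    calc |T2A a d x| * |T2B b d y| * |T2s σ x y| * |(T x y : ℝ)| ≤
        |T2A a d x| * |T2B b d y| * 1 * 1 := by
          apply mul_le_mul _ hT (abs_nonneg _) (by positivity)
          exact mul_le_mul_of_nonneg_left hs (by positivity)
      _ = |T2A a d x| * |T2B b d y| := by ring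
  refine e3.trans (mul_le_mul e1 e2 ?_ (by positivity))
  exact Finset.sum_nonneg (fun y _ => abs_nonneg _)

open Classical in
/-- the bilinear bound for one `d` -/
theorem T2_bil {Rp : ℕ → Finset Z8} {σ : Z8 → Z8 → ℤ} {C δ δ₃ : ℝ}
    (h1 : ∀ n : ℕ, ∀ w ∈ Rp n, Wp w ∧ N8 w = n ∧ gg w ^ 2 ≤ 9 * (n : ℤ))
    (h2 : ∀ n : ℕ, ∀ w ∈ Rp n, ∀ w' ∈ Rp n, Associated w w' → w = w')
    (hσ : ∀ x y, σ x y = 1 ∨ σ x y = -1)
    (hσ' : ∀ x x' y y' : Z8, (16 : Z8) ∣ x - x' → (16 : Z8) ∣ y - y' → σ x y = σ x' y')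
    (hC : ∀ M K : ℕ, 1 ≤ M → 1 ≤ K →
    ((M : ℝ) * K) ^ δ ≤ M → ((M : ℝ) * K) ^ δ ≤ K → ∀ X Y : Finset Z8,
    (∀ x ∈ X, x ≠ 0 ∧ N8 x ≤ M ∧ gg x ^ 2 ≤ 9 * N8 x) →
    (∀ x ∈ X, ∀ x' ∈ X, Associated x x' → x = x') →
    (∀ y ∈ Y, Wp y ∧ N8 y ≤ K ∧ Squarefree (N8 y)) →
    (∀ y ∈ Y, ∀ y' ∈ Y, Associated y y' → y = y') →
    ∀ α β : Z8 → ℝ, (∀ x, |α x| ≤ 1) → (∀ y, |β y| ≤ 1) →
    |∑ x ∈ X, ∑ y ∈ Y, α x * β y * T x y| ≤ C * ((M : ℝ) * K) ^ (1 - δ₃))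
    {a b : ℕ → ℝ} (ha : ∀ m, |a m| ≤ 1) (hb : ∀ m, |b m| ≤ 1) (M K d : ℕ) (hM : 1 ≤ M)
    (hK : 1 ≤ K) (hMK : ((M : ℝ) * K) ^ δ ≤ M) (hMK' : ((M : ℝ) * K) ^ δ ≤ K) :
    |∑ x ∈ (Finset.Icc 1 M).biUnion Rp, ∑ y ∈ ((Finset.Icc 1 K).filter Squarefree).biUnion Rp,
          T2A a d x * T2B b d y * T2s σ x y * T x y| ≤
      (Fintype.card T2K : ℝ) ^ 2 * (C * ((M : ℝ) * K) ^ (1 - δ₃)) := by
  have hdis : ∀ I : Finset ℕ, ∀ x ∈ I.biUnion Rp, ∀ x' ∈ I.biUnion Rp, Associated x x' →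
      x = x' := by
    intro I x hx x' hx' ha
    rw [Finset.mem_biUnion] at hx hx'
    obtain ⟨m, _, hx⟩ := hx
    obtain ⟨m', _, hx'⟩ := hx'
    have e := N8_assoc ha
    rw [(h1 m x hx).2.1, (h1 m' x' hx').2.1] at e
    have e' : m = m' := by exact_mod_cast e
    subst e'
    exact h2 m x hx x' hx' ha
  apply T2_class T2cl _ _ _ _ (T2A_abs ha d) (T2B_abs hb d) (T2s σ) (T2s_abs hσ)
    (fun x x' y y' h h' => T2s_cl hσ' x x' y y' h h')
  apply hC M K hM hK hMK hMK'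
  · intro x hx
    rw [Finset.mem_biUnion] at hx
    obtain ⟨m, hm, hx⟩ := hx
    rw [Finset.mem_Icc] at hm
    obtain ⟨a1, a2, a3⟩ := h1 m x hx
    refine ⟨?_, ?_, ?_⟩
    · rintro rfl
      have : N8 (0 : Z8) = 0 := N8_eq_zero.2 rfl
      rw [this] at a2
      omega
    · rw [a2]
      exact_mod_cast hm.2
    · rw [a2]
      exact a3
  · exact hdis _
  · intro y hy
    rw [Finset.mem_biUnion] at hy
    obtain ⟨m, hm, hy⟩ := hy
    rw [Finset.mem_filter, Finset.mem_Icc] at hm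
    obtain ⟨a1, a2, a3⟩ := h1 m y hy
    refine ⟨a1, ?_, ?_⟩
    · rw [a2]
      exact_mod_cast hm.1.2
    · rw [a2]
      exact Int.squarefree_natCast.2 hm.2
  · exact hdis _

theorem T2_dsum (S : ℕ → ℝ) (M k : ℕ) (V W : ℝ) (hV0 : 0 ≤ V) (hW0 : 0 ≤ W)
    (hV : ∀ d, |S d| ≤ V) (hW : ∀ d, |S d| ≤ W * ((d : ℝ) ^ 2)⁻¹) :
    |∑ d ∈ Finset.Icc 1 M, ((ArithmeticFunction.moebius d : ℤ) : ℝ) * S d| ≤
      k * V + W * (2 / (k + 1)) := by
  have hmu : ∀ d, |((ArithmeticFunction.moebius d : ℤ) : ℝ)| ≤ 1 := by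
    intro d
    have h : |ArithmeticFunction.moebius d| ≤ 1 := ArithmeticFunction.abs_moebius_le_one
    have h2 : ((|ArithmeticFunction.moebius d| : ℤ) : ℝ) ≤ ((1 : ℤ) : ℝ) := by exact_mod_cast h
    rw [Int.cast_abs] at h2
    simpa using h2
  have h1 : ∀ d ∈ Finset.Icc 1 M, |((ArithmeticFunction.moebius d : ℤ) : ℝ) * S d| ≤
      (if d ≤ k then V else 0) + (if k < d then W * ((d : ℝ) ^ 2)⁻¹ else 0) := by
    intro d _
    rw [abs_mul]
    have h2 : |((ArithmeticFunction.moebius d : ℤ) : ℝ)| * |S d| ≤ |S d| :=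
      mul_le_of_le_one_left (abs_nonneg _) (hmu d)
    by_cases hd : d ≤ k
    · rw [if_pos hd, if_neg (by omega), add_zero]
      exact h2.trans (hV d)
    · rw [if_neg hd, if_pos (by omega), zero_add]
      exact h2.trans (hW d)
  refine (Finset.abs_sum_le_sum_abs _ _).trans ((Finset.sum_le_sum h1).trans ?_)
  rw [Finset.sum_add_distrib]
  apply add_le_add
  · rw [← Finset.sum_filter, Finset.sum_const, nsmul_eq_mul]
    apply mul_le_mul_of_nonneg_right _ hV0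
    have h3 : (Finset.Icc 1 M).filter (fun d => d ≤ k) ⊆ Finset.Icc 1 k := by
      intro d hd
      rw [Finset.mem_filter, Finset.mem_Icc] at hd
      rw [Finset.mem_Icc]
      exact ⟨hd.1.1, hd.2⟩
    have h4 := Finset.card_le_card h3
    rw [Nat.card_Icc] at h4
    have h5 : ((Finset.Icc 1 M).filter (fun d => d ≤ k)).card ≤ k := by omega
    exact_mod_cast h5
  · rw [← Finset.sum_filter, ← Finset.mul_sum]
    apply mul_le_mul_of_nonneg_left _ hW0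
    have h3 : (Finset.Icc 1 M).filter (fun d => k < d) ⊆ Finset.Ioo k (M + 1) := by
      intro d hd
      rw [Finset.mem_filter, Finset.mem_Icc] at hd
      rw [Finset.mem_Ioo]
      omega
    refine le_trans (Finset.sum_le_sum_of_subset_of_nonneg h3 (fun d _ _ => by positivity)) ?_
    exact sum_Ioo_inv_sq_le k (M + 1)

theorem type2 (δ : ℝ) (hδ : 0 < δ) : ∃ δ₃ : ℝ, 0 < δ₃ ∧ ∃ C : ℝ, ∀ (M K : ℕ) (a b : ℕ → ℝ),
      1 ≤ M → 1 ≤ K → (∀ m, |a m| ≤ 1) → (∀ k, |b k| ≤ 1) →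
      ((M : ℝ) * K) ^ δ ≤ M → ((M : ℝ) * K) ^ δ ≤ K →
      |∑ m ∈ Finset.Icc 1 M, ∑ k ∈ Finset.Icc 1 K,
        a m * b k * (if Squarefree (m * k) then F (m * k) else 0)| ≤
        C * ((M : ℝ) * K) ^ (1 - δ₃) := by
  classical
  obtain ⟨Rp, h1, h2, h3, h4, h5⟩ := FD
  obtain ⟨σ, hσ1, hσ2, hσ3⟩ := St_mul
  obtain ⟨δ', hδ', C, hC⟩ := bil2 δ hδ
  obtain ⟨Cc, hCc⟩ := cnt (δ' / 8) (by positivity)
  refine ⟨δ' / 4, by positivity,
    4 * ((Fintype.card T2K : ℝ) ^ 2 * |C|) + 8 * (|Cc| * 20 ^ (δ' / 8)) ^ 2, ?_⟩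
  intro M K a b hM hK ha hb hMK hMK'
  set Z : ℝ := (M : ℝ) * K with hZ
  have hMr : (1 : ℝ) ≤ M := by exact_mod_cast hM
  have hKr : (1 : ℝ) ≤ K := by exact_mod_cast hK
  have hZ1 : 1 ≤ Z := one_le_mul_of_one_le_of_one_le hMr hKr
  have hZ0 : 0 < Z := by linarith
  have hMZ : (M : ℝ) ≤ Z := le_mul_of_one_le_right (by linarith) hKr
  have hKZ : (K : ℝ) ≤ Z := le_mul_of_one_le_left (by linarith) hMr
  rw [T2_sum h1 h2 h3 h4 h5 hσ3]
  set S : ℕ → ℝ := fun d => ∑ x ∈ (Finset.Icc 1 M).biUnion Rp,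
    ∑ y ∈ ((Finset.Icc 1 K).filter Squarefree).biUnion Rp,
      T2A a d x * T2B b d y * T2s σ x y * T x y with hS
  set V : ℝ := (Fintype.card T2K : ℝ) ^ 2 * (|C| * Z ^ (1 - δ')) with hV
  set B : ℝ := |Cc| * (20 ^ (δ' / 8) * Z ^ (δ' / 8)) with hB
  have hV0 : 0 ≤ V := by positivity
  have hB0 : 0 ≤ B := by positivity
  have hSV : ∀ d, |S d| ≤ V := by
    intro d
    refine (T2_bil h1 h2 hσ1 hσ2 hC ha hb M K d hM hK hMK hMK').trans ?_
    rw [hV]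
    apply mul_le_mul_of_nonneg_left _ (by positivity)
    exact mul_le_mul_of_nonneg_right (le_abs_self _) (by positivity)
  have hSW : ∀ d, |S d| ≤ (Z * B ^ 2) * ((d : ℝ) ^ 2)⁻¹ := by
    intro d
    have hcM : ∀ m ∈ Finset.Icc 1 M, ((Rp m).card : ℝ) ≤ B := by
      intro m hm
      rw [Finset.mem_Icc] at hm
      refine T2_card (by positivity) h1 hCc hm.1 (le_trans ?_ hMZ)
      exact_mod_cast hm.2
    have hcK : ∀ m ∈ Finset.Icc 1 K, ((Rp m).card : ℝ) ≤ B := by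
      intro m hm
      rw [Finset.mem_Icc] at hm
      refine T2_card (by positivity) h1 hCc hm.1 (le_trans ?_ hKZ)
      exact_mod_cast hm.2
    refine (T2_triv h1 hσ1 ha hb M K d B hB0 hcM hcK).trans (le_of_eq ?_)
    rw [hZ]
    ring
  set k : ℕ := ⌊Z ^ (δ' / 2)⌋₊ with hk
  have hk1 : (k : ℝ) ≤ Z ^ (δ' / 2) := Nat.floor_le (by positivity)
  have hk2 : Z ^ (δ' / 2) ≤ (k : ℝ) + 1 := (Nat.lt_floor_add_one _).le
  have hmain := T2_dsum S M k V (Z * B ^ 2) hV0 (by positivity) hSV hSW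
  rw [abs_mul, abs_of_pos (by norm_num : (0 : ℝ) < 4)]
  have e1 : (k : ℝ) * V ≤ (Fintype.card T2K : ℝ) ^ 2 * |C| * Z ^ (1 - δ' / 4) := by
    have h6 : (k : ℝ) * V ≤ Z ^ (δ' / 2) * V := mul_le_mul_of_nonneg_right hk1 hV0
    have h7 : Z ^ (δ' / 2) * V = (Fintype.card T2K : ℝ) ^ 2 * |C| *
        (Z ^ (δ' / 2) * Z ^ (1 - δ')) := by rw [hV]; ring
    have h8 : Z ^ (δ' / 2) * Z ^ (1 - δ') ≤ Z ^ (1 - δ' / 4) := by
      rw [← Real.rpow_add hZ0]
      exact Real.rpow_le_rpow_of_exponent_le hZ1 (by linarith)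
    rw [h7] at h6
    exact h6.trans (mul_le_mul_of_nonneg_left h8 (by positivity))
  have e2 : (Z * B ^ 2) * (2 / ((k : ℝ) + 1)) ≤
      2 * (|Cc| * 20 ^ (δ' / 8)) ^ 2 * Z ^ (1 - δ' / 4) := by
    have h6 : 2 / ((k : ℝ) + 1) ≤ 2 / Z ^ (δ' / 2) :=
      div_le_div_of_nonneg_left (by norm_num) (by positivity) hk2
    have h7 : (Z * B ^ 2) * (2 / ((k : ℝ) + 1)) ≤ (Z * B ^ 2) * (2 / Z ^ (δ' / 2)) :=
      mul_le_mul_of_nonneg_left h6 (by positivity)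
    have h8 : (Z * B ^ 2) * (2 / Z ^ (δ' / 2)) = 2 * (|Cc| * 20 ^ (δ' / 8)) ^ 2 *
        (Z * (Z ^ (δ' / 8)) ^ 2 / Z ^ (δ' / 2)) := by rw [hB]; ring
    have h9 : Z * (Z ^ (δ' / 8)) ^ 2 / Z ^ (δ' / 2) = Z ^ (1 - δ' / 4) := by
      rw [← Real.rpow_natCast (Z ^ (δ' / 8)) 2, ← Real.rpow_mul hZ0.le]
      have h10 : Z * Z ^ (δ' / 8 * ((2 : ℕ) : ℝ)) = Z ^ (1 + δ' / 8 * ((2 : ℕ) : ℝ)) := by
        rw [Real.rpow_add hZ0, Real.rpow_one]
      rw [h10, ← Real.rpow_sub hZ0]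
      congr 1
      push_cast
      ring
    rw [h8, h9] at h7
    exact h7
  have e3 : (4 * ((Fintype.card T2K : ℝ) ^ 2 * |C|) + 8 * (|Cc| * 20 ^ (δ' / 8)) ^ 2) *
      Z ^ (1 - δ' / 4) = 4 * ((Fintype.card T2K : ℝ) ^ 2 * |C| * Z ^ (1 - δ' / 4) +
        2 * (|Cc| * 20 ^ (δ' / 8)) ^ 2 * Z ^ (1 - δ' / 4)) := by ring
  rw [e3]
  apply mul_le_mul_of_nonneg_left _ (by norm_num)
  linarith

end Pool.Agent.TM32
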